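import Pool.Agent.Helper54.PT.DefsD

/-!
# Elements of `F(t)` with trivial class are `ℓ`-th powers (module C6)
-/

set_option autoImplicit false

namespace Pool.Agent.Helper54.PT

open Polynomial Finset Filter Topology Module

section Global

variable {F : Type} [Field F]

/-- A nonzero polynomial all of whose multiplicities are divisible by `ℓ` is a constant times an
`ℓ`-th power. -/
theorem c6_poly {ℓ : ℕ} (f : F[X]) (hf : f ≠ 0) (h : ∀ Q : Prm F, ℓ ∣ multiplicity Q.1 f) :
    ∃ g : F[X], f = C f.leadingCoeff * g ^ ℓ := by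
  classical
  set s := UniqueFactorizationMonoid.normalizedFactors f with hs
  have h1 : s.prod = normalize f := UniqueFactorizationMonoid.prod_normalizedFactors_eq hf
  have h2 : ∀ Q ∈ s, ℓ ∣ s.count Q := by
    intro Q hQ
    have hirr : Irreducible Q := UniqueFactorizationMonoid.irreducible_of_normalized_factor Q hQ
    have hnorm : normalize Q = Q := UniqueFactorizationMonoid.normalize_normalized_factor Q hQ
    have hmonic : Q.Monic := by
      rw [← hnorm]
      exact monic_normalize hirr.ne_zero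
    have h3 := UniqueFactorizationMonoid.emultiplicity_eq_count_normalizedFactors hirr hf
    rw [hnorm, ← hs] at h3
    have h4 : multiplicity Q f = s.count Q := multiplicity_eq_of_emultiplicity_eq_some h3
    rw [← h4]
    exact h ⟨Q, hmonic, hirr⟩
  refine ⟨∏ Q ∈ s.toFinset, Q ^ (s.count Q / ℓ), ?_⟩
  have h5 : s.prod = (∏ Q ∈ s.toFinset, Q ^ (s.count Q / ℓ)) ^ ℓ := by
    rw [Finset.prod_multiset_count, ← prod_pow]
    apply prod_congr rfl
    intro Q hQ
    rw [← pow_mul, Nat.div_mul_cancel (h2 Q (Multiset.mem_toFinset.1 hQ))]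
  rw [← h5, h1]
  have h6 : normalize f = f * C f.leadingCoeff⁻¹ := by
    rw [normalize_apply, coe_normUnit_of_ne_zero hf]
  rw [h6]
  have h7 : C f.leadingCoeff * C f.leadingCoeff⁻¹ = (1 : F[X]) := by
    rw [← C_mul, mul_inv_cancel₀ (leadingCoeff_ne_zero.2 hf), C_1]
  linear_combination (-f) * h7

/-- C6: elements with trivial class are `ℓ`-th powers -/
theorem exists_pow_of_class {ℓ : ℕ} [Fact ℓ.Prime] {lg : F → ZMod ℓ} (hlg : IsLog ℓ lg)
    {x : RatFunc F} (hx : x ≠ 0) (h : ∀ Q : Prm F, (ℓ : ℤ) ∣ ordK Q x) (hl : lg (lcK x) = 0) :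
    ∃ y : RatFunc F, x = y ^ ℓ := by
  have hnum : x.num ≠ 0 := RatFunc.num_ne_zero hx
  have hden : x.denom ≠ 0 := x.denom_ne_zero
  have hcop : IsCoprime x.num x.denom := x.isCoprime_num_denom
  have key : ∀ Q : Prm F, ℓ ∣ multiplicity Q.1 x.num ∧ ℓ ∣ multiplicity Q.1 x.denom := by
    intro Q
    have h1 := h Q
    unfold ordK at h1
    by_cases hd : Q.1 ∣ x.num
    · have hd' : ¬ Q.1 ∣ x.denom := by
        intro hd'
        exact Q.2.2.not_isUnit (hcop.isUnit_of_dvd' hd hd')
      have h2 : multiplicity Q.1 x.denom = 0 := multiplicity_eq_zero.2 hd'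
      rw [h2] at h1 ⊢
      rw [Nat.cast_zero, sub_zero] at h1
      exact ⟨by exact_mod_cast h1, dvd_zero _⟩
    · have h2 : multiplicity Q.1 x.num = 0 := multiplicity_eq_zero.2 hd
      rw [h2] at h1 ⊢
      rw [Nat.cast_zero, zero_sub, dvd_neg] at h1
      exact ⟨dvd_zero _, by exact_mod_cast h1⟩
  obtain ⟨g, hg⟩ := c6_poly x.num hnum fun Q => (key Q).1
  obtain ⟨g', hg'⟩ := c6_poly x.denom hden fun Q => (key Q).2
  rw [x.monic_denom.leadingCoeff, C_1, one_mul] at hg'
  have hlc : x.num.leadingCoeff ≠ 0 := leadingCoeff_ne_zero.2 hnum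
  obtain ⟨c, hc⟩ := (hlg.2.1 _ hlc).1 hl
  refine ⟨algebraMap F[X] (RatFunc F) (C c * g) / algebraMap F[X] (RatFunc F) g', ?_⟩
  have h1 : x = algebraMap F[X] (RatFunc F) x.num / algebraMap F[X] (RatFunc F) x.denom :=
    (RatFunc.num_div_denom x).symm
  rw [div_pow, ← map_pow, ← map_pow, mul_pow, ← C_pow, hc, ← hg, ← hg']
  exact h1

end Global

end Pool.Agent.Helper54.PT
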