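import Pool.Agent.Helper54.PT.DefsD

/-!
# Elements close to one are `ℓ`-th powers (module C1)
-/

set_option autoImplicit false

namespace Pool.Agent.Helper54.PT

open Polynomial Finset Filter Topology Module Pool.Agent.Helper47.BSD

universe u

section Local

section aux

variable {L : Type u} [NormedField L] [IsUltrametricDist L]

theorem c1_add {x y : L} {r : ℝ} (hx : ‖x‖ ≤ r) (hy : ‖y‖ ≤ r) : ‖x + y‖ ≤ r :=
  le_trans (IsUltrametricDist.norm_add_le_max x y) (max_le hx hy)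

theorem c1_norm {x : L} {r : ℝ} (hr : r < 1) (hx : ‖x - 1‖ ≤ r) : ‖x‖ ≤ 1 := by
  have h : x = (x - 1) + 1 := by ring
  rw [h]
  exact c1_add (le_trans hx hr.le) (by rw [norm_one])

theorem c1_mul {x y : L} {r : ℝ} (hr : r < 1) (hx : ‖x - 1‖ ≤ r) (hy : ‖y - 1‖ ≤ r) :
    ‖x * y - 1‖ ≤ r := by
  have h : x * y - 1 = x * (y - 1) + (x - 1) := by ring
  have hr0 : 0 ≤ r := le_trans (norm_nonneg _) hx
  rw [h]
  apply c1_add _ hx
  rw [norm_mul]
  calc ‖x‖ * ‖y - 1‖ ≤ 1 * r := mul_le_mul (c1_norm hr hx) hy (norm_nonneg _) zero_le_one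
    _ = r := one_mul r

theorem c1_pow {x : L} {r : ℝ} (hr : r < 1) (hx : ‖x - 1‖ ≤ r) (n : ℕ) : ‖x ^ n - 1‖ ≤ r := by
  induction n with
  | zero => rw [pow_zero, sub_self, norm_zero]; exact le_trans (norm_nonneg _) hx
  | succ n ih =>
    rw [pow_succ]
    exact c1_mul hr ih hx

end aux

/-- C1: elements close to one are `ℓ`-th powers -/
theorem exists_pow_near_one {L : Type u} [NormedField L] [IsUltrametricDist L] [CompleteSpace L]
    {ℓ : ℕ} (hℓ0 : 0 < ℓ) (hℓ : ‖(ℓ : L)‖ = 1) (z : L) (hz : ‖z - 1‖ < 1) :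
    ∃ w : L, w ^ ℓ = z ∧ ‖w - 1‖ < 1 := by
  set r : ℝ := ‖z - 1‖ with hr
  have hℓne : (ℓ : L) ≠ 0 := by
    intro h
    rw [h, norm_zero] at hℓ
    exact zero_ne_one hℓ
  set f : L → L := fun w => w - (w ^ ℓ - z) / ℓ with hf
  set s : Set L := Metric.closedBall 1 r with hs
  have hmem : ∀ w, w ∈ s ↔ ‖w - 1‖ ≤ r := fun w => by
    rw [hs, Metric.mem_closedBall, dist_eq_norm]
  have hmaps : Set.MapsTo f s s := by
    intro w hw
    rw [hmem] at hw ⊢
    have h1 : f w - 1 = (w - 1) + -((w ^ ℓ - z) / ℓ) := by simp only [hf]; ring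
    rw [h1]
    apply c1_add hw
    rw [norm_neg, norm_div, hℓ, div_one]
    have h2 : w ^ ℓ - z = (w ^ ℓ - 1) + -(z - 1) := by ring
    rw [h2]
    apply c1_add (c1_pow hz hw ℓ)
    rw [norm_neg]
  have hlip : ∀ w ∈ s, ∀ w' ∈ s, ‖f w - f w'‖ ≤ r * ‖w - w'‖ := by
    intro w hw w' hw'
    rw [hmem] at hw hw'
    have h1 : f w - f w' = (w - w') *
        ((∑ i ∈ range ℓ, (1 - w ^ i * w' ^ (ℓ - 1 - i))) / ℓ) := by
      have h2 := (Commute.all w w').geom_sum₂_mul ℓ
      have h3 : (∑ i ∈ range ℓ, (1 - w ^ i * w' ^ (ℓ - 1 - i))) =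
          ℓ - ∑ i ∈ range ℓ, w ^ i * w' ^ (ℓ - 1 - i) := by
        rw [sum_sub_distrib, sum_const, card_range, nsmul_eq_mul, mul_one]
      rw [h3]
      simp only [hf]
      field_simp
      linear_combination h2
    rw [h1, norm_mul, norm_div, hℓ, div_one, mul_comm]
    apply mul_le_mul_of_nonneg_right _ (norm_nonneg _)
    apply IsUltrametricDist.norm_sum_le_of_forall_le_of_nonneg (norm_nonneg _)
    intro i _
    rw [norm_sub_rev]
    exact c1_mul hz (c1_pow hz hw i) (c1_pow hz hw' _)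
  have hcomplete : IsComplete s := Metric.isClosed_closedBall.isComplete
  obtain ⟨K, hKr⟩ : ∃ K : NNReal, (K : ℝ) = r := ⟨⟨r, norm_nonneg _⟩, rfl⟩
  have hK : K < 1 := by
    rw [← NNReal.coe_lt_coe, hKr]
    exact hz
  have hcontr : ContractingWith K (hmaps.restrict f s s) := by
    refine ⟨hK, LipschitzWith.of_dist_le_mul fun x y => ?_⟩
    rw [hKr]
    rw [Subtype.dist_eq, Subtype.dist_eq, dist_eq_norm, dist_eq_norm]
    exact hlip x.1 x.2 y.1 y.2
  obtain ⟨w, hw, hfix, -⟩ := hcontr.exists_fixedPoint' hcomplete hmaps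
    (show (1 : L) ∈ s from by rw [hmem, sub_self, norm_zero]; exact norm_nonneg _)
    (edist_ne_top _ _)
  refine ⟨w, ?_, lt_of_le_of_lt ((hmem w).1 hw) hz⟩
  have h1 : w - (w ^ ℓ - z) / ℓ = w := hfix
  have h2 : (w ^ ℓ - z) / ℓ = 0 := by
    have : w - (w ^ ℓ - z) / ℓ - w = 0 := by rw [h1, sub_self]
    linear_combination -this
  rw [div_eq_zero_iff] at h2
  rcases h2 with h2 | h2
  · exact sub_eq_zero.1 h2
  · exact absurd h2 hℓne

variable {k : Type u} [NontriviallyNormedField k] [IsUltrametricDist k] [CompleteSpace k]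
  {ℓ : ℕ} {π : k}

/-- C1': the same in finite extensions -/
theorem exists_pow_near_one' {L : Type u} [Field L] [Algebra k L] [FiniteDimensional k L]
    (hℓ0 : 0 < ℓ) (hℓ : ‖(ℓ : k)‖ = 1) (z : L) (hz : specAbs k L (z - 1) < 1) :
    ∃ w : L, w ^ ℓ = z ∧ specAbs k L (w - 1) < 1 := by
  let hNF : NormedField L := spectralNorm.normedField k L
  have hcs : CompleteSpace L := spectralNorm.completeSpace k L
  have hnorm : ∀ x : L, ‖x‖ = specAbs k L x := fun x => rfl
  have hu : IsUltrametricDist L :=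
    IsUltrametricDist.isUltrametricDist_of_forall_norm_add_le_max_norm fun x y => by
      rw [hnorm, hnorm, hnorm]
      exact specAbs_add_le x y
  have hℓ' : ‖(ℓ : L)‖ = 1 := by
    rw [hnorm, ← map_natCast (algebraMap k L) ℓ, specAbs_algebraMap]
    exact hℓ
  obtain ⟨w, hw, hw1⟩ := exists_pow_near_one hℓ0 hℓ' z (by rw [hnorm]; exact hz)
  exact ⟨w, hw, by rw [hnorm] at hw1; exact hw1⟩

end Local

end Pool.Agent.Helper54.PT
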