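import Pool.Agent.Helper13.TW.StD

/-!
# Project TW, module SCE: small cells exist
-/

set_option autoImplicit false

namespace Pool.Agent.Helper57.TW

open Set Topology Pool.Agent.Helper13.TR Pool.Agent.Helper13.TW

theorem hSCE (hCHN : StCHN) (hSIM : StSIM) (hWIN : StWIN) (hWD : StWD) (hSM : StSM)
    (hSDA : StSDA) (hCON : StCON) (hMON : StMON) : StSCE := by
  intro S _ _ _ ω V hG hL a haV O hO haO
  obtain ⟨mon, mcap, muniv, mbd, -, -⟩ := hMON S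
  obtain ⟨hbb, -⟩ := hSDA S
  obtain ⟨win1, -, -, -, win5⟩ := hWIN S ω hG.ws hG.nc
  obtain ⟨-, -, -, wd4⟩ := hWD S ω V hG
  obtain ⟨O₁, hO₁, haO₁, hO₁O, hb⟩ := hL a (O ∩ V) (hO.inter hG.op) ⟨haO, haV⟩
  obtain ⟨e, he, he1⟩ := hG.ws.one a
  have hac : IsOpen ({a}ᶜ : Set S) := isOpen_compl_singleton
  -- small chains
  have hun : O₁ ∪ ({a}ᶜ : Set S) = univ := by
    rw [eq_univ_iff_forall]
    intro x
    by_cases hx : x = a
    · left; rw [hx]; exact haO₁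
    · right; exact hx
  have he' : bd 1 e ∈ cin ({a}ᶜ : Set S) 1 := he
  obtain ⟨e₁, h₁, e₂, h₂, f, -, hef⟩ := hSM S O₁ {a}ᶜ hO₁ hac 2 e
    (by rw [hun, muniv]; exact Submodule.mem_top)
    (show bd 1 e ∈ cin O₁ 1 ⊔ cin ({a}ᶜ : Set S) 1 from Submodule.mem_sup_right he')
  have hn : e₂ + bd 2 f ∈ Nul {a} 2 :=
    Submodule.add_mem_sup h₂ (LinearMap.mem_range_self _ f)
  have hc2 : bd 1 (e₂ + bd 2 f) ∈ cin ({a}ᶜ : Set S) 1 := by
    rw [map_add, hbb, add_zero]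
    exact mbd _ _ _ h₂
  have hc1 : bd 1 e₁ ∈ cin ({a}ᶜ : Set S) 1 := by
    have : bd 1 e₁ = bd 1 e - bd 1 (e₂ + bd 2 f) := by
      rw [hef, ← map_sub]; congr 1; abel
    rw [this]
    exact Submodule.sub_mem _ he' hc2
  have hw1 : ω a e₁ = 1 := by
    have h := hG.ws.add a e₁ hc1 (e₂ + bd 2 f) hc2
    rw [← add_assoc, ← hef, he1, hG.ws.nul a _ hn, add_zero] at h
    exact h.symm
  have hz1 : bd 1 e₁ ∈ cin (O₁ ∩ {a}ᶜ) 1 := by
    rw [← mcap]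
    exact ⟨mbd _ _ _ h₁, hc1⟩
  obtain ⟨Q, hQ, hzQ, hQmin⟩ := hCON.2 S 1 (bd 1 e₁)
  have hQO : Q ⊆ O₁ ∩ {a}ᶜ := hQmin _ hz1
  have hWz : W ω (bd 1 e₁) a ≠ 0 := by
    rw [win1 e₁ a hc1, hw1]; exact one_ne_zero
  -- tameness
  have hV : ∀ y : Q, ∃ V' : Set S, IsOpen V' ∧ (y : S) ∈ V' ∧ V' ⊆ {a}ᶜ ∧
      ∀ z ∈ cin V' 1, bd 0 z = 0 → ∃ e ∈ cin ({a}ᶜ : Set S) 2, bd 1 e = z :=
    fun y => hL y {a}ᶜ hac (hQO y.2).2
  choose V' hV1 hV2 _ hV4 using hV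
  obtain ⟨δ, hδ, hleb⟩ := lebesgue_number_lemma_of_metric hQ hV1
    (fun y hy => mem_iUnion.2 ⟨⟨y, hy⟩, hV2 ⟨y, hy⟩⟩)
  have hT : Tame ω Q a (δ / 4) := by
    intro C hC hd u hu hu0
    rcases C.eq_empty_or_nonempty with rfl | ⟨x, hx⟩
    · have hu' : u = 0 := by
        have h := (Finsupp.mem_supported ℤ u).1 hu
        by_contra hne
        obtain ⟨σ, hσ⟩ := Finsupp.support_nonempty_iff.2 hne
        have h2 : range σ ⊆ (∅ : Set S) := h hσ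
        exact h2 ⟨stdSimplex.vertex 0, rfl⟩
      have := win5 0 ({a}ᶜ) (Submodule.zero_mem _) a (by simp)
      rwa [map_zero, ← hu'] at this
    · obtain ⟨y, hy⟩ := hleb x (hC hx)
      have hCV : C ⊆ V' y := by
        intro c hc
        apply hy
        rw [Metric.mem_ball]
        have := Metric.dist_le_diam_of_mem (hQ.isBounded.subset hC) hc hx
        linarith
      obtain ⟨e', he', hee⟩ := hV4 y u (mon _ _ _ hCV hu) hu0
      have := win5 e' ({a}ᶜ) he' a (by simp)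
      rwa [hee] at this
  have hQV : Q ⊆ V := fun x hx => (hO₁O (hQO hx).1).2
  have haQ : a ∉ Q := fun h => (hQO h).2 rfl
  have hz0 : bd 0 (bd 1 e₁) = 0 := hbb 0 e₁
  obtain ⟨n, x, α, hn1, hch, hw⟩ := hCHN S ω V hG Q a (δ / 4) hQ hQV haQ (by positivity) hT
    (bd 1 e₁) hzQ hz0 hWz
  obtain ⟨J, hJQ, hJ, haJ⟩ := hSIM S ω V hG Q a (δ / 4) hQ hQV haQ (by positivity) hT n x α hn1
    hch hw
  have hJV : J ⊆ V := hJQ.trans hQV
  have hins : Ins ω J ⊆ O ∩ V := wd4 J O₁ (O ∩ V) hJ hJV (fun y hy => (hQO (hJQ hy)).1) hb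
  refine ⟨J, ⟨⟨hJ, hJV, ⟨a, haJ⟩⟩, fun y hy => (hins hy).2⟩, haJ, ?_⟩
  exact union_subset (fun y hy => (hO₁O (hQO (hJQ hy)).1).1) (fun y hy => (hins hy).1)

end Pool.Agent.Helper57.TW
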