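import Pool.Agent.Helper54.PT.DefsE

/-!
# The intersection of two families of local conditions (module D6e)
-/

set_option autoImplicit false

namespace Pool.Agent.Helper54.PT

open Polynomial Finset Filter Topology Module

theorem d6e_z1 : ∀ c : ZMod 2, c ≠ c + 1 := by decide

theorem d6e_z2 : ∀ c : ZMod 2, c + 1 + 1 = c := by decide

theorem d6e_z3 : ∀ u c c' : ZMod 2, c ≠ c' → u * c = u * c' → u = 0 := by decide

section Twist

variable {ι : Type} [Fintype ι] [DecidableEq ι] (a : ι → ℕ) (i₀ : ι)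

omit [Fintype ι] [DecidableEq ι] in
theorem d6e_cast (ha : ∀ i, ¬ 2 ∣ a i) (i : ι) : (a i : ZMod 2) = 1 := by
  have h1 : ¬ ((a i : ZMod 2) = 0) := fun h => ha i ((ZMod.natCast_eq_zero_iff _ _).1 h)
  revert h1
  generalize (a i : ZMod 2) = x
  revert x
  decide

theorem d6e_ext_i₀ (ha : ∀ i, ¬ 2 ∣ a i) (v : {j : ι // j ≠ i₀} → ZMod 2) :
    ext a i₀ v i₀ = ∑ j, v j := by
  unfold ext
  rw [dif_pos rfl]
  simp only [d6e_cast a ha, one_mul, inv_one]
  generalize (∑ j, v j) = x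
  revert x
  decide

theorem d6e_ext_ne (v : {j : ι // j ≠ i₀} → ZMod 2) (i : ι) (h : i ≠ i₀) :
    ext a i₀ v i = v ⟨i, h⟩ := by
  unfold ext
  rw [dif_neg h]

theorem d6e_split (f : ι → ZMod 2) :
    ∑ i, f i = f i₀ + ∑ j : {j : ι // j ≠ i₀}, f j.1 := by
  rw [← sum_subtype (univ.erase i₀) (by simp) f]
  exact (add_sum_erase _ _ (mem_univ _)).symm

theorem d6e_sum (ha : ∀ i, ¬ 2 ∣ a i) (v : {j : ι // j ≠ i₀} → ZMod 2) :
    ∑ i, ext a i₀ v i = 0 := by
  have h2 : ∑ j : {j : ι // j ≠ i₀}, ext a i₀ v j.1 = ∑ j, v j := by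
    apply sum_congr rfl
    intro j _
    exact d6e_ext_ne a i₀ v j.1 j.2
  rw [d6e_split i₀, h2, d6e_ext_i₀ a i₀ ha]
  generalize (∑ j, v j) = x
  revert x
  decide

/-- the element with extension `1` at `i` and `m`, and `0` elsewhere -/
def d6e_prv (i m : ι) : {j : ι // j ≠ i₀} → ZMod 2 := fun j => if j.1 = i ∨ j.1 = m then 1 else 0

theorem d6e_ext_prv (ha : ∀ i, ¬ 2 ∣ a i) (i m : ι) (him : i ≠ m) (n : ι) :
    ext a i₀ (d6e_prv i₀ i m) n = if n = i ∨ n = m then 1 else 0 := by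
  by_cases hn : n = i₀
  · subst hn
    rw [d6e_ext_i₀ a n ha]
    have h1 : ∑ k : ι, (if k = i ∨ k = m then (1 : ZMod 2) else 0) = 0 := by
      rw [sum_ite, sum_const_zero, add_zero, sum_const, nsmul_eq_mul, mul_one]
      have h2 : (univ.filter fun k => k = i ∨ k = m) = {i, m} := by
        ext k
        simp
      rw [h2, card_pair him]
      rfl
    rw [d6e_split n] at h1
    have h3 : ∑ j : {j : ι // j ≠ n}, (if j.1 = i ∨ j.1 = m then (1 : ZMod 2) else 0) =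
        ∑ j, d6e_prv n i m j := rfl
    rw [h3] at h1
    revert h1
    generalize (∑ j, d6e_prv n i m j) = x
    generalize (if n = i ∨ n = m then (1 : ZMod 2) else 0) = y
    revert x y
    decide
  · rw [d6e_ext_ne a i₀ _ n hn]
    rfl

theorem d6e_inj (x y : {j : ι // j ≠ i₀} → ZMod 2)
    (h : ∀ n, ext a i₀ x n = ext a i₀ y n) : x = y := by
  funext j
  have := h j.1
  rwa [d6e_ext_ne a i₀ x j.1 j.2, d6e_ext_ne a i₀ y j.1 j.2] at this

theorem d6e_supp (ha : ∀ i, ¬ 2 ∣ a i) (j₁ j₂ : ι) (hj : j₁ ≠ j₂)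
    (x : {j : ι // j ≠ i₀} → ZMod 2) (hx : ∀ m, m ≠ j₁ → m ≠ j₂ → ext a i₀ x m = 0) :
    ext a i₀ x j₁ = ext a i₀ x j₂ ∧
      x = if ext a i₀ x j₂ = 0 then 0 else d6e_prv i₀ j₁ j₂ := by
  have h1 := d6e_sum a i₀ ha x
  have h2 : ∑ i, ext a i₀ x i = ext a i₀ x j₁ + ext a i₀ x j₂ := by
    rw [← sum_pair hj]
    symm
    apply sum_subset (subset_univ _)
    intro m _ hm
    rw [mem_insert, mem_singleton, not_or] at hm
    exact hx m hm.1 hm.2
  rw [h2] at h1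
  have h3 : ext a i₀ x j₁ = ext a i₀ x j₂ := by
    revert h1
    generalize ext a i₀ x j₁ = u
    generalize ext a i₀ x j₂ = w
    revert u w
    decide
  refine ⟨h3, ?_⟩
  split_ifs with h4
  · apply d6e_inj a i₀
    intro n
    rw [ext_zero]
    by_cases hn1 : n = j₁
    · rw [hn1, h3, h4]
    · by_cases hn2 : n = j₂
      · rw [hn2, h4]
      · exact hx n hn1 hn2
  · apply d6e_inj a i₀
    intro n
    rw [d6e_ext_prv a i₀ ha j₁ j₂ hj]
    have h5 : ext a i₀ x j₂ = 1 := by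
      revert h4
      generalize ext a i₀ x j₂ = w
      revert w
      decide
    by_cases hn1 : n = j₁
    · rw [hn1, h3, h5, if_pos (Or.inl rfl)]
    · by_cases hn2 : n = j₂
      · rw [hn2, h5, if_pos (Or.inr rfl)]
      · rw [hx n hn1 hn2, if_neg (by tauto)]

theorem d6e_fib (ha : ∀ i, ¬ 2 ∣ a i) (j₁ j₂ j₃ : ι) (h12 : j₁ ≠ j₂) (h13 : j₃ ≠ j₁)
    (h23 : j₃ ≠ j₂) (c : ZMod 2) :
    2 * (univ.filter fun z : {j : ι // j ≠ i₀} → ZMod 2 =>
      ext a i₀ z j₁ - ext a i₀ z j₂ = c).card = 2 ^ Fintype.card {j : ι // j ≠ i₀} := by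
  set w := d6e_prv i₀ j₁ j₃ with hw
  have hw1 : ext a i₀ w j₁ - ext a i₀ w j₂ = 1 := by
    rw [hw, d6e_ext_prv a i₀ ha j₁ j₃ h13.symm, d6e_ext_prv a i₀ ha j₁ j₃ h13.symm,
      if_pos (Or.inl rfl), if_neg (by
        rintro (h | h)
        · exact h12 h.symm
        · exact h23 h.symm), sub_zero]
  have hbij : ∀ c : ZMod 2, (univ.filter fun z : {j : ι // j ≠ i₀} → ZMod 2 =>
      ext a i₀ z j₁ - ext a i₀ z j₂ = c).card ≤ (univ.filter fun z : {j : ι // j ≠ i₀} → ZMod 2 =>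
      ext a i₀ z j₁ - ext a i₀ z j₂ = c + 1).card := by
    intro c
    apply card_le_card_of_injOn (fun z => z + w)
    · intro z hz
      rw [mem_coe, mem_filter] at hz ⊢
      refine ⟨mem_univ _, ?_⟩
      rw [ext_add, Pi.add_apply, Pi.add_apply, ← hz.2, ← hw1]
      ring
    · intro z _ z' _ h
      exact add_right_cancel h
  have htot : (univ.filter fun z : {j : ι // j ≠ i₀} → ZMod 2 =>
      ext a i₀ z j₁ - ext a i₀ z j₂ = c).card + (univ.filter fun z : {j : ι // j ≠ i₀} → ZMod 2 =>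
      ext a i₀ z j₁ - ext a i₀ z j₂ = c + 1).card = 2 ^ Fintype.card {j : ι // j ≠ i₀} := by
    rw [← card_union_of_disjoint]
    · have h1 : ((univ.filter fun z : {j : ι // j ≠ i₀} → ZMod 2 =>
          ext a i₀ z j₁ - ext a i₀ z j₂ = c) ∪ (univ.filter fun z : {j : ι // j ≠ i₀} → ZMod 2 =>
          ext a i₀ z j₁ - ext a i₀ z j₂ = c + 1)) = univ := by
        ext z
        rw [mem_union, mem_filter, mem_filter]
        simp only [mem_univ, true_and, iff_true]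
        generalize ext a i₀ z j₁ - ext a i₀ z j₂ = u
        revert u c
        decide
      rw [h1, card_univ, Fintype.card_fun, ZMod.card]
    · rw [disjoint_left]
      intro z hz hz'
      rw [mem_filter] at hz hz'
      exact d6e_z1 c (hz.2.symm.trans hz'.2)
  have h1 := hbij c
  have h2 := hbij (c + 1)
  rw [d6e_z2 c] at h2
  omega

theorem d6e_eq (ha : ∀ i, ¬ 2 ∣ a i) (j₁ j₂ j₃ : ι) (h12 : j₁ ≠ j₂) (h13 : j₃ ≠ j₁)
    (h23 : j₃ ≠ j₂) (c : ZMod 2) :
    (univ.filter fun xz : ({j : ι // j ≠ i₀} → ZMod 2) × ({j : ι // j ≠ i₀} → ZMod 2) =>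
      (∀ m, m ≠ j₁ → m ≠ j₂ → ext a i₀ xz.1 m = 0) ∧
      ext a i₀ xz.2 j₁ - ext a i₀ xz.2 j₂ = ext a i₀ xz.1 j₂ * c).card =
        2 ^ Fintype.card {j : ι // j ≠ i₀} := by
  have h1 : (univ.filter fun x : {j : ι // j ≠ i₀} → ZMod 2 =>
      ∀ m, m ≠ j₁ → m ≠ j₂ → ext a i₀ x m = 0) = {0, d6e_prv i₀ j₁ j₂} := by
    ext x
    rw [mem_filter, mem_insert, mem_singleton]
    constructor
    · rintro ⟨-, hx⟩
      have := (d6e_supp a i₀ ha j₁ j₂ h12 x hx).2
      split_ifs at this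
      · exact Or.inl this
      · exact Or.inr this
    · rintro (rfl | rfl)
      · exact ⟨mem_univ _, fun m _ _ => ext_zero a i₀ m⟩
      · refine ⟨mem_univ _, fun m hm1 hm2 => ?_⟩
        rw [d6e_ext_prv a i₀ ha j₁ j₂ h12, if_neg (by tauto)]
  have hne : (0 : {j : ι // j ≠ i₀} → ZMod 2) ≠ d6e_prv i₀ j₁ j₂ := by
    intro h
    have h2 : ext a i₀ (0 : {j : ι // j ≠ i₀} → ZMod 2) j₁ = ext a i₀ (d6e_prv i₀ j₁ j₂) j₁ := by
      rw [← h]
    rw [ext_zero, d6e_ext_prv a i₀ ha j₁ j₂ h12, if_pos (Or.inl rfl)] at h2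
    exact zero_ne_one h2
  have h2 : (univ.filter fun xz : ({j : ι // j ≠ i₀} → ZMod 2) × ({j : ι // j ≠ i₀} → ZMod 2) =>
      (∀ m, m ≠ j₁ → m ≠ j₂ → ext a i₀ xz.1 m = 0) ∧
      ext a i₀ xz.2 j₁ - ext a i₀ xz.2 j₂ = ext a i₀ xz.1 j₂ * c).card =
      ∑ x ∈ univ.filter (fun x : {j : ι // j ≠ i₀} → ZMod 2 =>
        ∀ m, m ≠ j₁ → m ≠ j₂ → ext a i₀ x m = 0),
        (univ.filter fun z : {j : ι // j ≠ i₀} → ZMod 2 =>
          ext a i₀ z j₁ - ext a i₀ z j₂ = ext a i₀ x j₂ * c).card := by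
    rw [card_filter, Fintype.sum_prod_type, sum_filter]
    apply sum_congr rfl
    intro x _
    split_ifs with hx
    · rw [card_filter]
      apply sum_congr rfl
      intro z _
      exact if_congr (and_iff_right hx) rfl rfl
    · apply sum_eq_zero
      intro z _
      rw [if_neg (fun h => hx h.1)]
  rw [h2, h1, sum_pair hne]
  have h3 := d6e_fib a i₀ ha j₁ j₂ j₃ h12 h13 h23
    (ext a i₀ (0 : {j : ι // j ≠ i₀} → ZMod 2) j₂ * c)
  have h4 := d6e_fib a i₀ ha j₁ j₂ j₃ h12 h13 h23 (ext a i₀ (d6e_prv i₀ j₁ j₂) j₂ * c)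
  omega

theorem d6e_neq (ha : ∀ i, ¬ 2 ∣ a i) (j₁ j₂ j₃ : ι) (h12 : j₁ ≠ j₂) (h13 : j₃ ≠ j₁)
    (h23 : j₃ ≠ j₂) (c c' : ZMod 2) (hc : c ≠ c') :
    2 * (univ.filter fun xz : ({j : ι // j ≠ i₀} → ZMod 2) × ({j : ι // j ≠ i₀} → ZMod 2) =>
      ((∀ m, m ≠ j₁ → m ≠ j₂ → ext a i₀ xz.1 m = 0) ∧
      ext a i₀ xz.2 j₁ - ext a i₀ xz.2 j₂ = ext a i₀ xz.1 j₂ * c) ∧
      ((∀ m, m ≠ j₁ → m ≠ j₂ → ext a i₀ xz.1 m = 0) ∧
      ext a i₀ xz.2 j₁ - ext a i₀ xz.2 j₂ = ext a i₀ xz.1 j₂ * c')).card =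
        2 ^ Fintype.card {j : ι // j ≠ i₀} := by
  rw [← d6e_fib a i₀ ha j₁ j₂ j₃ h12 h13 h23 0]
  congr 1
  apply card_bij (fun xz _ => xz.2)
  · rintro ⟨x, z⟩ h
    rw [mem_filter] at h ⊢
    obtain ⟨-, ⟨hx, h1⟩, -, h2⟩ := h
    simp only at h1 h2 hx ⊢
    have h3 : ext a i₀ x j₂ * c = ext a i₀ x j₂ * c' := h1.symm.trans h2
    have h4 : ext a i₀ x j₂ = 0 := d6e_z3 _ _ _ hc h3
    rw [h4, zero_mul] at h1
    exact ⟨mem_univ _, h1⟩
  · rintro ⟨x, z⟩ h ⟨x', z'⟩ h' hz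
    rw [mem_filter] at h h'
    have key : ∀ x z : {j : ι // j ≠ i₀} → ZMod 2,
        (∀ m, m ≠ j₁ → m ≠ j₂ → ext a i₀ x m = 0) →
        ext a i₀ z j₁ - ext a i₀ z j₂ = ext a i₀ x j₂ * c →
        ext a i₀ z j₁ - ext a i₀ z j₂ = ext a i₀ x j₂ * c' → x = 0 := by
      intro x z hx h1 h2
      have h3 : ext a i₀ x j₂ * c = ext a i₀ x j₂ * c' := h1.symm.trans h2
      have h4 : ext a i₀ x j₂ = 0 := d6e_z3 _ _ _ hc h3
      have h5 := (d6e_supp a i₀ ha j₁ j₂ h12 x hx).2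
      rwa [if_pos h4] at h5
    have e1 := key x z h.2.1.1 h.2.1.2 h.2.2.2
    have e2 := key x' z' h'.2.1.1 h'.2.1.2 h'.2.2.2
    rw [Prod.mk.injEq]
    exact ⟨e1.trans e2.symm, hz⟩
  · intro z hz
    rw [mem_filter] at hz
    refine ⟨(0, z), ?_, rfl⟩
    rw [mem_filter]
    simp only [ext_zero, zero_mul]
    exact ⟨mem_univ _, ⟨fun _ _ _ => trivial, hz.2⟩, fun _ _ _ => trivial, hz.2⟩

theorem d6e_zz : ∀ x y : ZMod 2, x ≠ y → x + y = 1 := by decide

theorem d6e_zs : ∀ x : ZMod 2, x + x = 0 := by decide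

theorem d6e_card (ha : ∀ i, ¬ 2 ∣ a i) (hs : ¬ 2 ∣ ∑ i, a i) :
    Fintype.card ι = Fintype.card {j : ι // j ≠ i₀} + 1 ∧
      ((Fintype.card {j : ι // j ≠ i₀} : ℕ) : ZMod 2) = 0 := by
  have h1 : Fintype.card ι = Fintype.card {j : ι // j ≠ i₀} + 1 := by
    have h2 : Fintype.card {j : ι // j ≠ i₀} = Fintype.card ι - 1 := by
      rw [Fintype.card_subtype, filter_ne', card_erase_of_mem (mem_univ _), card_univ]
    have h3 : 0 < Fintype.card ι := Fintype.card_pos_iff.2 ⟨i₀⟩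
    omega
  refine ⟨h1, ?_⟩
  have h4 : ¬ (((∑ i, a i : ℕ) : ZMod 2) = 0) := fun h => hs ((ZMod.natCast_eq_zero_iff _ _).1 h)
  rw [Nat.cast_sum, sum_congr rfl fun i _ => d6e_cast a ha i, sum_const, card_univ,
    nsmul_eq_mul, mul_one, h1, Nat.cast_add, Nat.cast_one] at h4
  revert h4
  generalize ((Fintype.card {j : ι // j ≠ i₀} : ℕ) : ZMod 2) = x
  revert x
  decide

variable {σ : Type} [Fintype σ] [DecidableEq σ] (i₁ i₂ : σ → ι) (lgl : ι → ι → ZMod 2)
  (dR : σ → ZMod 2) (sR : σ → σ → ZMod 2) (X : PData 2 σ) (D : Finset X.P)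

/-- D6e: the dimension of the intersection of two families of local conditions, with its parity -/
theorem finrank_inter (ha : ∀ i, ¬ 2 ∣ a i) (hs : ¬ 2 ∣ ∑ i, a i) (hne : ∀ r, i₁ r ≠ i₂ r)
    (N : ZMod 2) (κ κ' : Option σ → ZMod 2) (hκ : κ none = κ' none)
    (L L' : Submodule (ZMod 2) (QV i₀ X D))
    (hL : ∀ x, x ∈ L ↔ ∀ t, locC a i₀ i₁ i₂ lgl dR sR X D N κ True t (x.1 t) (x.2 t))
    (hL' : ∀ x, x ∈ L' ↔ ∀ t, locC a i₀ i₁ i₂ lgl dR sR X D N κ' False t (x.1 t) (x.2 t)) :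
    ((finrank (ZMod 2) (L ⊓ L' : Submodule (ZMod 2) (QV i₀ X D)) : ℕ) : ZMod 2) =
      ∑ r, (κ (some r) + κ' (some r)) := by
  classical
  obtain ⟨hc1, hc2⟩ := d6e_card a i₀ ha hs
  set n := Fintype.card {j : ι // j ≠ i₀} with hn
  -- a third index
  have h3 : ∀ r, ∃ j₃, j₃ ≠ i₁ r ∧ j₃ ≠ i₂ r := by
    intro r
    by_contra hcon
    push Not at hcon
    have h4 : (univ : Finset ι) ⊆ {i₁ r, i₂ r} := by
      intro j _
      rw [mem_insert, mem_singleton]
      by_cases hj : j = i₁ r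
      · exact Or.inl hj
      · exact Or.inr (hcon j hj)
    have h5 := card_le_card h4
    rw [card_univ, card_pair (hne r)] at h5
    have h6 : 2 ≤ Fintype.card ι := by
      have := card_le_univ ({i₁ r, i₂ r} : Finset ι)
      rwa [card_pair (hne r)] at this
    have h7 : n = 1 := by omega
    rw [h7] at hc2
    exact absurd hc2 (by decide)
  set J' := {j : ι // j ≠ i₀}
  -- the local spaces
  set P : Pl X D → ((J' → ZMod 2) × (J' → ZMod 2)) → Prop := fun t xz =>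
    locC a i₀ i₁ i₂ lgl dR sR X D N κ True t xz.1 xz.2 ∧
      locC a i₀ i₁ i₂ lgl dR sR X D N κ' False t xz.1 xz.2 with hP
  set S : Pl X D → Finset ((J' → ZMod 2) × (J' → ZMod 2)) := fun t => univ.filter (P t) with hS
  have hmem : ∀ x : QV i₀ X D, x ∈ L ⊓ L' ↔ ∀ t, P t (x.1 t, x.2 t) := by
    intro x
    rw [Submodule.mem_inf, hL, hL']
    exact ⟨fun h t => ⟨h.1 t, h.2 t⟩, fun h => ⟨fun t => (h t).1, fun t => (h t).2⟩⟩
  have hcard : Nat.card (L ⊓ L' : Submodule (ZMod 2) (QV i₀ X D)) = ∏ t, (S t).card := by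
    have e : (L ⊓ L' : Submodule (ZMod 2) (QV i₀ X D)) ≃
        ((t : Pl X D) → {xz : (J' → ZMod 2) × (J' → ZMod 2) // P t xz}) :=
      { toFun := fun x t => ⟨(x.1.1 t, x.1.2 t), (hmem x.1).1 x.2 t⟩
        invFun := fun f => ⟨(fun t => (f t).1.1, fun t => (f t).1.2),
          (hmem _).2 fun t => (f t).2⟩
        left_inv := fun x => rfl
        right_inv := fun f => rfl }
    rw [Nat.card_congr e, Nat.card_pi]
    apply prod_congr rfl
    intro t _
    rw [Nat.card_eq_fintype_card, Fintype.card_subtype]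
  have hpow : Nat.card (L ⊓ L' : Submodule (ZMod 2) (QV i₀ X D)) =
      2 ^ finrank (ZMod 2) (L ⊓ L' : Submodule (ZMod 2) (QV i₀ X D)) := by
    rw [Module.natCard_eq_pow_finrank (K := ZMod 2), Nat.card_zmod]
  -- the three kinds of places
  have s1 : ∀ p : D, (S (Sum.inr p)).card = 1 := by
    intro p
    rw [card_eq_one]
    refine ⟨(0, 0), ?_⟩
    ext ⟨x, z⟩
    rw [hS, mem_filter, mem_singleton]
    simp only [hP, locC, Prod.mk.injEq, mem_univ, true_and]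
    constructor
    · rintro ⟨⟨h1, -⟩, -, h2⟩
      have hx : x = 0 := funext fun j => h2 (fun h => h) j
      refine ⟨hx, funext fun j => ?_⟩
      have h4 := h1 trivial j
      rw [hx, map_zero] at h4
      simpa using h4
    · rintro ⟨rfl, rfl⟩
      refine ⟨⟨fun _ j => ?_, fun h => absurd trivial h⟩, fun h => h.elim, fun _ j => rfl⟩
      simp
  have s2 : (S (Sum.inl none)).card = 2 ^ n := by
    by_cases h0 : κ none + N = 0
    · have h1 : S (Sum.inl none) = (univ : Finset (J' → ZMod 2)).image fun x => (x, 0) := by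
        ext ⟨x, z⟩
        rw [hS, mem_filter, mem_image]
        simp only [hP, locC, Prod.mk.injEq, mem_univ, true_and]
        constructor
        · rintro ⟨⟨h1, -⟩, -⟩
          exact ⟨x, rfl, (funext fun j => h1 h0 j).symm⟩
        · rintro ⟨x', rfl, rfl⟩
          rw [← hκ]
          exact ⟨⟨fun _ j => rfl, fun h => absurd h0 h⟩, fun _ j => rfl, fun h => absurd h0 h⟩
      rw [h1, card_image_of_injective _ (fun x y h => (Prod.mk.injEq _ _ _ _ ▸ h).1), card_univ,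
        Fintype.card_fun, ZMod.card]
    · have h1 : S (Sum.inl none) = (univ : Finset (J' → ZMod 2)).image fun z =>
          ((fun j => tau a i₀ i₁ i₂ lgl (fun j => (κ none + N)⁻¹ * z j) j none), z) := by
        ext ⟨x, z⟩
        rw [hS, mem_filter, mem_image]
        simp only [hP, locC, Prod.mk.injEq, mem_univ, true_and]
        constructor
        · rintro ⟨⟨-, h1⟩, -⟩
          exact ⟨z, (funext fun j => h1 h0 j).symm, rfl⟩
        · rintro ⟨z', rfl, rfl⟩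
          rw [← hκ]
          exact ⟨⟨fun h => absurd h h0, fun _ j => rfl⟩, fun h => absurd h h0, fun _ j => rfl⟩
      rw [h1, card_image_of_injective _ (fun x y h => (Prod.mk.injEq _ _ _ _ ▸ h).2), card_univ,
        Fintype.card_fun, ZMod.card]
  have s3 : ∀ r, ∃ m : ℕ, (S (Sum.inl (some r))).card = 2 ^ m ∧
      (m : ZMod 2) = κ (some r) + κ' (some r) := by
    intro r
    obtain ⟨j₃, hj1, hj2⟩ := h3 r
    set c := rho a i₁ i₂ lgl dR sR r - asum 2 a * (a (i₁ r) : ZMod 2)⁻¹ * κ (some r) with hc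
    set c' := rho a i₁ i₂ lgl dR sR r - asum 2 a * (a (i₁ r) : ZMod 2)⁻¹ * κ' (some r) with hc'
    have hSr : S (Sum.inl (some r)) = univ.filter fun xz : (J' → ZMod 2) × (J' → ZMod 2) =>
        ((∀ m, m ≠ i₁ r → m ≠ i₂ r → ext a i₀ xz.1 m = 0) ∧
        ext a i₀ xz.2 (i₁ r) - ext a i₀ xz.2 (i₂ r) = ext a i₀ xz.1 (i₂ r) * c) ∧
        ((∀ m, m ≠ i₁ r → m ≠ i₂ r → ext a i₀ xz.1 m = 0) ∧
        ext a i₀ xz.2 (i₁ r) - ext a i₀ xz.2 (i₂ r) = ext a i₀ xz.1 (i₂ r) * c') := by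
      rw [hS]
      apply filter_congr
      intro xz _
      exact Iff.rfl
    have hasum : asum 2 a = 1 := by
      have h4 : asum 2 a = ((∑ i, a i : ℕ) : ZMod 2) := by
        unfold asum
        rw [Nat.cast_sum]
      have h5 : ¬ (((∑ i, a i : ℕ) : ZMod 2) = 0) :=
        fun h => hs ((ZMod.natCast_eq_zero_iff _ _).1 h)
      rw [h4]
      revert h5
      generalize ((∑ i, a i : ℕ) : ZMod 2) = x
      revert x
      decide
    by_cases hkk : κ (some r) = κ' (some r)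
    · refine ⟨n, ?_, ?_⟩
      · have hcc : c = c' := by rw [hc, hc', hkk]
        rw [hSr, ← d6e_eq a i₀ ha (i₁ r) (i₂ r) j₃ (hne r) hj1 hj2 c]
        congr 1
        apply filter_congr
        intro xz _
        rw [← hcc]
        exact and_self_iff
      · rw [hc2, hkk, d6e_zs]
    · have hcc : c ≠ c' := by
        rw [hc, hc', hasum, d6e_cast a ha]
        intro h
        apply hkk
        have h4 := sub_right_injective h
        simpa using h4
      have h4 := d6e_neq a i₀ ha (i₁ r) (i₂ r) j₃ (hne r) hj1 hj2 c c' hcc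
      rw [← hSr, ← hn] at h4
      have hn1 : 1 ≤ n := by
        by_contra hcon
        have h5 : n = 0 := by omega
        rw [h5, pow_zero] at h4
        omega
      refine ⟨n - 1, ?_, ?_⟩
      · have h5 : 2 ^ n = 2 * 2 ^ (n - 1) := by
          rw [← pow_succ']
          congr 1
          omega
        rw [h5] at h4
        omega
      · rw [d6e_zz _ _ hkk, Nat.cast_sub hn1, hc2, Nat.cast_one]
        decide
  choose m hm1 hm2 using s3
  rw [hpow] at hcard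
  have hprod : ∏ t, (S t).card = 2 ^ (n + ∑ r, m r) := by
    rw [Fintype.prod_sum_type, Fintype.prod_option, s2]
    simp only [s1, hm1, prod_const_one, mul_one]
    rw [prod_pow_eq_pow_sum, ← pow_add]
  rw [hprod] at hcard
  have hfin := Nat.pow_right_injective (le_refl 2) hcard
  rw [hfin, Nat.cast_add, hc2, zero_add, Nat.cast_sum]
  exact sum_congr rfl fun r _ => hm2 r

end Twist

end Pool.Agent.Helper54.PT
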