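import Pool.Agent.Helper54.PT.DefsE

/-!
# The auxiliary polynomials of Stepanov's method exist (module S2)
-/

set_option autoImplicit false

namespace Pool.Agent.Helper54.PT

open Polynomial Finset Filter Topology Module

section Stepanov

theorem s2_finrank {K : Type} [Field K] (n : ℕ) : finrank K (degreeLT K n) = n := by
  rw [(degreeLTEquiv K n).finrank_eq, Module.finrank_fin_fun]

/-- one of the linear maps -/
noncomputable def s2_psi {K : Type} [Field K] (A J : ℕ) (T U : K[X] →ₗ[K] K[X]) (c : K) :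
    ((Fin J → degreeLT K A) × (Fin J → degreeLT K A)) →ₗ[K] K[X] where
  toFun v := ∑ j : Fin J, (T (v.1 j : K[X]) + C c * U (v.2 j : K[X])) * X ^ (j : ℕ)
  map_add' v w := by
    rw [← sum_add_distrib]
    apply sum_congr rfl
    intro j _
    simp only [Prod.fst_add, Prod.snd_add, Pi.add_apply, Submodule.coe_add, map_add]
    ring
  map_smul' t v := by
    rw [RingHom.id_apply, smul_sum]
    apply sum_congr rfl
    intro j _
    simp only [Prod.smul_fst, Prod.smul_snd, Pi.smul_apply, Submodule.coe_smul]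
    rw [map_smul, map_smul, smul_eq_C_mul, smul_eq_C_mul, smul_eq_C_mul]
    ring

theorem s2_mem {K : Type} [Field K] {B : ℕ} {p : K[X]} (hp : p ∈ degreeLT K B) (j : ℕ) :
    p * X ^ j ∈ degreeLT K (B + j) := by
  rw [mem_degreeLT] at hp ⊢
  by_cases h0 : p = 0
  · rw [h0, zero_mul, degree_zero]
    exact WithBot.bot_lt_coe _
  · rw [degree_mul, degree_X_pow]
    rw [degree_eq_natDegree h0] at hp ⊢
    norm_cast at hp ⊢
    omega

theorem s2_mono {K : Type} [Field K] {B B' : ℕ} (h : B ≤ B') {p : K[X]}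
    (hp : p ∈ degreeLT K B) : p ∈ degreeLT K B' := by
  rw [mem_degreeLT] at hp ⊢
  exact lt_of_lt_of_le hp (by exact_mod_cast h)

theorem s2_C {K : Type} [Field K] {B : ℕ} {p : K[X]} (hp : p ∈ degreeLT K B) (c : K) :
    C c * p ∈ degreeLT K B := by
  rw [← smul_eq_C_mul]
  exact Submodule.smul_mem _ _ hp

/-- S2: the auxiliary polynomials exist -/
theorem exists_aux {K : Type} [Field K] (A J m d : ℕ) (T U : ℕ → K[X] →ₗ[K] K[X]) (c : K)
    (hT : ∀ k < m, ∀ g ∈ degreeLT K A, T k g ∈ degreeLT K (A + k * d))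
    (hU : ∀ k < m, ∀ g ∈ degreeLT K A, U k g ∈ degreeLT K (A + k * d))
    (hcount : m * (A + J) + d * m ^ 2 < 2 * A * J) :
    ∃ r s : Fin J → K[X], (∀ j, r j ∈ degreeLT K A) ∧ (∀ j, s j ∈ degreeLT K A) ∧
      (∃ j, r j ≠ 0 ∨ s j ≠ 0) ∧
      ∀ k < m, ∑ j : Fin J, (T k (r j) + C c * U k (s j)) * X ^ (j : ℕ) = 0 := by
  have hcod : ∀ k : Fin m, ∀ v, s2_psi A J (T k) (U k) c v ∈ degreeLT K (A + m * d + J) := by
    intro k v
    show ∑ j : Fin J, (T k (v.1 j : K[X]) + C c * U k (v.2 j : K[X])) * X ^ (j : ℕ) ∈ _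
    apply Submodule.sum_mem
    intro j _
    have h1 : T k (v.1 j : K[X]) + C c * U k (v.2 j : K[X]) ∈ degreeLT K (A + k * d) :=
      Submodule.add_mem _ (hT k k.2 _ (v.1 j).2) (s2_C (hU k k.2 _ (v.2 j).2) c)
    apply s2_mono _ (s2_mem h1 (j : ℕ))
    have h2 : (k : ℕ) * d ≤ m * d := Nat.mul_le_mul_right _ k.2.le
    have h3 := j.2
    omega
  let Φ : ((Fin J → degreeLT K A) × (Fin J → degreeLT K A)) →ₗ[K]
      (Fin m → degreeLT K (A + m * d + J)) :=
    LinearMap.pi fun k => LinearMap.codRestrict _ (s2_psi A J (T k) (U k) c) (hcod k)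
  have hfin : ∀ n : ℕ, Module.Finite K (degreeLT K n) := fun n =>
    Module.Finite.equiv (degreeLTEquiv K n).symm
  have := hfin A
  have := hfin (A + m * d + J)
  have hlt : finrank K (Fin m → degreeLT K (A + m * d + J)) <
      finrank K ((Fin J → degreeLT K A) × (Fin J → degreeLT K A)) := by
    rw [Module.finrank_pi_fintype, Module.finrank_prod, Module.finrank_pi_fintype]
    simp only [s2_finrank, sum_const, card_univ, Fintype.card_fin, smul_eq_mul]
    nlinarith
  have hker := LinearMap.ker_ne_bot_of_finrank_lt (f := Φ) hlt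
  obtain ⟨v, hv, hv0⟩ := Submodule.exists_mem_ne_zero_of_ne_bot hker
  refine ⟨fun j => (v.1 j : K[X]), fun j => (v.2 j : K[X]), fun j => (v.1 j).2,
    fun j => (v.2 j).2, ?_, ?_⟩
  · by_contra hcon
    push Not at hcon
    apply hv0
    apply Prod.ext
    · funext j
      exact Subtype.ext (hcon j).1
    · funext j
      exact Subtype.ext (hcon j).2
  · intro k hk
    have h1 : Φ v = 0 := hv
    have h2 := congrFun h1 ⟨k, hk⟩
    exact congrArg Subtype.val h2

end Stepanov

end Pool.Agent.Helper54.PT
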