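import Pool.Agent.Helper54.PT.Defs
import Pool.Agent.Helper54.PT.Pd
import Pool.Agent.Helper62.TW.A4A5

/-!
# The bilinear estimate (module A16)
-/

set_option autoImplicit false

namespace Pool.Agent.Helper54.PT

open Polynomial Finset Filter Topology

/-! ### The additive character -/

section EE

variable {ℓ : ℕ} [NeZero ℓ]

theorem a16_ee_add (x y : ZMod ℓ) : ee (x + y) = ee x * ee y := AddChar.map_add_eq_mul _ _ _

theorem a16_ee_zero : ee (0 : ZMod ℓ) = 1 := AddChar.map_zero_eq_one _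

theorem a16_ee_norm (x : ZMod ℓ) : ‖ee x‖ = 1 := by
  unfold ee
  exact AddChar.norm_apply _ _

theorem a16_ee_conj (x : ZMod ℓ) : starRingEnd ℂ (ee x) = ee (-x) := by
  unfold ee
  rw [AddChar.map_neg_eq_conj]

end EE

/-! ### The symbols -/

section Sy

variable {F : Type} [Field F]

theorem a16_nm_mul (Q f g : F[X]) : nm Q (f * g) = nm Q f * nm Q g := by
  unfold nm
  rw [map_mul, map_mul]

theorem a16_nm_ne_zero {Q f : F[X]} (hQi : Irreducible Q) (h : ¬ Q ∣ f) :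
    nm Q f ≠ 0 := by
  have : Fact (Irreducible Q) := ⟨hQi⟩
  have : Module.Finite F (AdjoinRoot Q) :=
    (AdjoinRoot.powerBasis (f := Q) hQi.ne_zero).finite
  unfold nm
  rw [Algebra.norm_ne_zero_iff]
  intro h0
  exact h (AdjoinRoot.mk_eq_zero.1 h0)

theorem a16_sy_mul {ℓ : ℕ} {lg : F → ZMod ℓ} (hlg : IsLog ℓ lg) {Q f g : F[X]}
    (hQi : Irreducible Q) (hf : ¬ Q ∣ f) (hg : ¬ Q ∣ g) :
    sy lg Q (f * g) = sy lg Q f + sy lg Q g := by
  unfold sy
  rw [a16_nm_mul, hlg.1 _ _ (a16_nm_ne_zero hQi hf) (a16_nm_ne_zero hQi hg)]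

theorem a16_sy_one {ℓ : ℕ} {lg : F → ZMod ℓ} (hlg : IsLog ℓ lg) (Q : F[X]) :
    sy lg Q 1 = 0 := by
  have h0 : lg 1 = 0 := by
    have := hlg.1 1 1 one_ne_zero one_ne_zero
    rw [mul_one] at this
    simpa using this
  unfold sy nm
  rw [map_one, map_one, h0]

theorem a16_sy_prod {ℓ : ℕ} {lg : F → ZMod ℓ} (hlg : IsLog ℓ lg) {Q : F[X]}
    (hQi : Irreducible Q) {α : Type} (s : Finset α) (f : α → F[X]) (hf : ∀ i ∈ s, ¬ Q ∣ f i) :
    sy lg Q (∏ i ∈ s, f i) = ∑ i ∈ s, sy lg Q (f i) := by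
  classical
  induction s using Finset.induction_on with
  | empty => rw [prod_empty, sum_empty, a16_sy_one hlg]
  | insert a s ha ih =>
    rw [prod_insert ha, sum_insert ha, a16_sy_mul hlg hQi (hf a (mem_insert_self a s)) ?_,
      ih fun i hi => hf i (mem_insert_of_mem hi)]
    intro hd
    obtain ⟨i, hi, hdi⟩ := (hQi.prime.dvd_finsetProd_iff f).1 hd
    exact hf i (mem_insert_of_mem hi) hdi

end Sy

/-! ### The characters -/

section Chi

variable {F : Type} [Field F] {ℓ : ℕ} [NeZero ℓ]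

open Classical in
/-- the character attached to a set of primes -/
noncomputable def a16_chi (lg : F → ZMod ℓ) (c : ZMod ℓ) (G : Finset (Prm F)) (f : F[X]) : ℂ :=
  if ∃ Q ∈ G, Q.1 ∣ f then 0 else ee (c * ∑ Q ∈ G, sy lg Q.1 f)

theorem a16_chi_norm (lg : F → ZMod ℓ) (c : ZMod ℓ) (G : Finset (Prm F)) (f : F[X]) :
    ‖a16_chi lg c G f‖ ≤ 1 := by
  unfold a16_chi
  split_ifs
  · simp
  · rw [a16_ee_norm]

theorem a16_chi_mul {lg : F → ZMod ℓ} (hlg : IsLog ℓ lg) (c : ZMod ℓ) (G : Finset (Prm F))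
    (f g : F[X]) : a16_chi lg c G (f * g) = a16_chi lg c G f * a16_chi lg c G g := by
  unfold a16_chi
  by_cases hf : ∃ Q ∈ G, Q.1 ∣ f
  · obtain ⟨Q, hQ, hd⟩ := hf
    rw [if_pos ⟨Q, hQ, hd.mul_right g⟩, if_pos ⟨Q, hQ, hd⟩, zero_mul]
  · by_cases hg : ∃ Q ∈ G, Q.1 ∣ g
    · obtain ⟨Q, hQ, hd⟩ := hg
      rw [if_pos ⟨Q, hQ, hd.mul_left f⟩, if_pos (⟨Q, hQ, hd⟩ : ∃ Q ∈ G, Q.1 ∣ g), mul_zero]
    · have hfg : ¬ ∃ Q ∈ G, Q.1 ∣ f * g := by
        rintro ⟨Q, hQ, hd⟩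
        rcases Q.2.2.prime.dvd_or_dvd hd with h | h
        · exact hf ⟨Q, hQ, h⟩
        · exact hg ⟨Q, hQ, h⟩
      rw [if_neg hf, if_neg hg, if_neg hfg, ← a16_ee_add, ← mul_add, ← sum_add_distrib]
      congr 2
      apply sum_congr rfl
      intro Q hQ
      exact a16_sy_mul hlg Q.2.2 (fun h => hf ⟨Q, hQ, h⟩) fun h => hg ⟨Q, hQ, h⟩

end Chi

/-! ### Orthogonality and the large sieve -/

section Sieve

variable {F : Type} [Field F] [Finite F] {ℓ : ℕ} [Fact ℓ.Prime] {lg : F → ZMod ℓ}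

/-- the statement A5 -/
def A16Orth (F : Type) [Field F] [Finite F] (ℓ : ℕ) [Fact ℓ.Prime] (lg : F → ZMod ℓ) : Prop :=
  ∀ (G : Finset (Prm F)) (g : Prm F → ZMod ℓ) (_ : ∃ Q ∈ G, g Q ≠ 0) (n : ℕ)
    (_ : ∑ Q ∈ G, Q.1.natDegree ≤ n),
    ∑ f ∈ mon F n, (open Classical in if ∃ Q ∈ G, Q.1 ∣ f then (0 : ℂ) else
      ee (∑ Q ∈ G, g Q * sy lg Q.1 f)) = 0

theorem a16_orth (horth : A16Orth F ℓ lg) {c : ZMod ℓ} (hc : c ≠ 0) {G G' : Finset (Prm F)}
    (hne : G ≠ G') (N : ℕ) (hd : ∑ Q ∈ G, Q.1.natDegree + ∑ Q ∈ G', Q.1.natDegree ≤ N) :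
    ∑ f ∈ mon F N, a16_chi lg c G f * starRingEnd ℂ (a16_chi lg c G' f) = 0 := by
  classical
  have hsub : ∃ Q, Q ∈ G ∪ G' ∧ ¬ (Q ∈ G ↔ Q ∈ G') := by
    by_contra hcon
    push Not at hcon
    apply hne
    ext Q
    by_cases h : Q ∈ G ∪ G'
    · exact hcon Q h
    · rw [mem_union, not_or] at h
      exact ⟨fun h' => absurd h' h.1, fun h' => absurd h' h.2⟩
  obtain ⟨Q₀, hQ₀, hQ₁⟩ := hsub
  set g : Prm F → ZMod ℓ := fun Q => (if Q ∈ G then c else 0) - (if Q ∈ G' then c else 0) with hg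
  have hg0 : g Q₀ ≠ 0 := by
    simp only [hg]
    by_cases h1 : Q₀ ∈ G
    · have h2 : Q₀ ∉ G' := fun h => hQ₁ ⟨fun _ => h, fun _ => h1⟩
      rw [if_pos h1, if_neg h2, sub_zero]
      exact hc
    · have h2 : Q₀ ∈ G' := by
        by_contra h
        exact hQ₁ ⟨fun h' => absurd h' h1, fun h' => absurd h' h⟩
      rw [if_neg h1, if_pos h2, zero_sub]
      exact neg_ne_zero.2 hc
  have hdeg : ∑ Q ∈ G ∪ G', Q.1.natDegree ≤ N := by
    have h1 := sum_union_inter (s₁ := G) (s₂ := G') (f := fun Q => Q.1.natDegree)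
    omega
  have h := horth (G ∪ G') g ⟨Q₀, hQ₀, hg0⟩ N hdeg
  rw [← h]
  apply sum_congr rfl
  intro f _
  unfold a16_chi
  by_cases hf : ∃ Q ∈ G ∪ G', Q.1 ∣ f
  · rw [if_pos hf]
    obtain ⟨Q, hQ, hd⟩ := hf
    rcases mem_union.1 hQ with hQ | hQ
    · rw [if_pos (⟨Q, hQ, hd⟩ : ∃ Q ∈ G, Q.1 ∣ f), zero_mul]
    · rw [if_pos (⟨Q, hQ, hd⟩ : ∃ Q ∈ G', Q.1 ∣ f), map_zero, mul_zero]
  · have h1 : ¬ ∃ Q ∈ G, Q.1 ∣ f := fun ⟨Q, hQ, hd⟩ => hf ⟨Q, mem_union_left _ hQ, hd⟩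
    have h2 : ¬ ∃ Q ∈ G', Q.1 ∣ f := fun ⟨Q, hQ, hd⟩ => hf ⟨Q, mem_union_right _ hQ, hd⟩
    rw [if_neg hf, if_neg h1, if_neg h2, a16_ee_conj, ← a16_ee_add]
    congr 1
    have e1 : ∑ Q ∈ G ∪ G', g Q * sy lg Q.1 f =
        ∑ Q ∈ G ∪ G', (if Q ∈ G then c * sy lg Q.1 f else 0) -
        ∑ Q ∈ G ∪ G', (if Q ∈ G' then c * sy lg Q.1 f else 0) := by
      rw [← sum_sub_distrib]
      apply sum_congr rfl
      intro Q _
      simp only [hg]
      split_ifs <;> ring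
    rw [e1, ← sum_filter, ← sum_filter, mul_sum, mul_sum, ← sub_eq_add_neg]
    congr 1
    · apply sum_congr _ fun _ _ => rfl
      ext Q
      simp only [mem_filter, mem_union]
      tauto
    · apply sum_congr _ fun _ _ => rfl
      ext Q
      simp only [mem_filter, mem_union]
      tauto

theorem a16_sieve (horth : A16Orth F ℓ lg) (hmon : ∀ n, (mon F n).card = Nat.card F ^ n)
    {c : ZMod ℓ} (hc : c ≠ 0) (𝒜 : Finset (Finset (Prm F))) (N : ℕ)
    (h𝒜 : ∀ G ∈ 𝒜, 2 * ∑ Q ∈ G, Q.1.natDegree ≤ N) (u : Finset (Prm F) → ℂ) :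
    ∑ f ∈ mon F N, ‖∑ G ∈ 𝒜, u G * a16_chi lg c G f‖ ^ 2 ≤
      (Nat.card F : ℝ) ^ N * ∑ G ∈ 𝒜, ‖u G‖ ^ 2 := by
  classical
  have key : ((∑ f ∈ mon F N, ‖∑ G ∈ 𝒜, u G * a16_chi lg c G f‖ ^ 2 : ℝ) : ℂ) =
      ((∑ G ∈ 𝒜, ‖u G‖ ^ 2 * ∑ f ∈ mon F N, ‖a16_chi lg c G f‖ ^ 2 : ℝ) : ℂ) := by
    push_cast
    have e1 : ∀ f, ((‖∑ G ∈ 𝒜, u G * a16_chi lg c G f‖ : ℂ)) ^ 2 =
        ∑ G ∈ 𝒜, ∑ G' ∈ 𝒜, (u G * starRingEnd ℂ (u G')) *
          (a16_chi lg c G f * starRingEnd ℂ (a16_chi lg c G' f)) := by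
      intro f
      rw [← Complex.mul_conj', map_sum, sum_mul_sum]
      apply sum_congr rfl
      intro G _
      apply sum_congr rfl
      intro G' _
      rw [map_mul]
      ring
    simp_rw [e1]
    rw [sum_comm]
    apply sum_congr rfl
    intro G hG
    rw [sum_comm, sum_eq_single G]
    · rw [← mul_sum]
      have e2 : u G * starRingEnd ℂ (u G) = (‖u G‖ : ℂ) ^ 2 := Complex.mul_conj' _
      rw [e2]
      congr 1
      apply sum_congr rfl
      intro f _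
      exact Complex.mul_conj' _
    · intro G' hG' hne
      rw [← mul_sum, a16_orth horth hc hne.symm N ?_, mul_zero]
      have h1 := h𝒜 G hG
      have h2 := h𝒜 G' hG'
      omega
    · intro h
      exact absurd hG h
  have key' := Complex.ofReal_injective key
  rw [key', mul_sum]
  apply sum_le_sum
  intro G _
  have h1 : ∑ f ∈ mon F N, ‖a16_chi lg c G f‖ ^ 2 ≤ (Nat.card F : ℝ) ^ N := by
    calc ∑ f ∈ mon F N, ‖a16_chi lg c G f‖ ^ 2 ≤ ∑ _f ∈ mon F N, (1 : ℝ) := by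
          apply sum_le_sum
          intro f _
          exact pow_le_one₀ (norm_nonneg _) (a16_chi_norm lg c G f)
      _ = (Nat.card F : ℝ) ^ N := by
          rw [sum_const, nsmul_eq_mul, mul_one, hmon]
          push_cast
          rfl
  calc ‖u G‖ ^ 2 * ∑ f ∈ mon F N, ‖a16_chi lg c G f‖ ^ 2
      ≤ ‖u G‖ ^ 2 * (Nat.card F : ℝ) ^ N := mul_le_mul_of_nonneg_left h1 (sq_nonneg _)
    _ = _ := mul_comm _ _

theorem a16_dual (horth : A16Orth F ℓ lg) (hmon : ∀ n, (mon F n).card = Nat.card F ^ n)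
    {c : ZMod ℓ} (hc : c ≠ 0) (𝒜 : Finset (Finset (Prm F))) (N : ℕ)
    (h𝒜 : ∀ G ∈ 𝒜, 2 * ∑ Q ∈ G, Q.1.natDegree ≤ N) (b : F[X] → ℂ) :
    ∑ G ∈ 𝒜, ‖∑ f ∈ mon F N, b f * a16_chi lg c G f‖ ^ 2 ≤
      (Nat.card F : ℝ) ^ N * ∑ f ∈ mon F N, ‖b f‖ ^ 2 := by
  set v : Finset (Prm F) → ℂ := fun G => ∑ f ∈ mon F N, b f * a16_chi lg c G f with hv
  set T : ℝ := ∑ G ∈ 𝒜, ‖v G‖ ^ 2 with hT
  set u : Finset (Prm F) → ℂ := fun G => starRingEnd ℂ (v G) with hu
  have hsieve := a16_sieve horth hmon hc 𝒜 N h𝒜 u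
  have hun : ∀ G, ‖u G‖ = ‖v G‖ := fun G => by simp only [hu, RCLike.norm_conj]
  simp_rw [hun] at hsieve
  rw [← hT] at hsieve
  have hTC : (T : ℂ) = ∑ f ∈ mon F N, b f * ∑ G ∈ 𝒜, u G * a16_chi lg c G f := by
    rw [hT]
    push_cast
    have e1 : ∀ G, ((‖v G‖ : ℂ)) ^ 2 = ∑ f ∈ mon F N, u G * (b f * a16_chi lg c G f) := by
      intro G
      rw [← Complex.conj_mul', ← mul_sum]
    simp_rw [e1]
    rw [sum_comm]
    apply sum_congr rfl
    intro f _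
    rw [mul_sum]
    apply sum_congr rfl
    intro G _
    ring
  have hT0 : 0 ≤ T := sum_nonneg fun G _ => sq_nonneg _
  have hTle : T ≤ ∑ f ∈ mon F N, ‖b f‖ * ‖∑ G ∈ 𝒜, u G * a16_chi lg c G f‖ := by
    have h1 : ‖(T : ℂ)‖ ≤ ∑ f ∈ mon F N, ‖b f‖ * ‖∑ G ∈ 𝒜, u G * a16_chi lg c G f‖ := by
      rw [hTC]
      refine le_trans (norm_sum_le _ _) (sum_le_sum fun f _ => ?_)
      rw [norm_mul]
    rwa [Complex.norm_real, Real.norm_eq_abs, abs_of_nonneg hT0] at h1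
  have hcs := sum_mul_sq_le_sq_mul_sq (mon F N) (fun f => ‖b f‖)
    (fun f => ‖∑ G ∈ 𝒜, u G * a16_chi lg c G f‖)
  have hB0 : 0 ≤ ∑ f ∈ mon F N, ‖b f‖ ^ 2 := sum_nonneg fun f _ => sq_nonneg _
  have hT2 : T ^ 2 ≤ (∑ f ∈ mon F N, ‖b f‖ ^ 2) * ((Nat.card F : ℝ) ^ N * T) :=
    le_trans (pow_le_pow_left₀ hT0 hTle 2)
      (le_trans hcs (mul_le_mul_of_nonneg_left hsieve hB0))
  rcases hT0.eq_or_lt with h0 | h0
  · show T ≤ _
    rw [← h0]
    positivity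
  · show T ≤ _
    have h3 : T * T ≤ ((Nat.card F : ℝ) ^ N * ∑ f ∈ mon F N, ‖b f‖ ^ 2) * T := by
      nlinarith
    exact le_of_mul_le_mul_right h3 h0

end Sieve

/-! ### Prime data of polynomials -/

section Count

variable {F : Type} [Field F] {ℓ : ℕ} {σ : Type} (X : PData ℓ σ) (pol : X.P → Prm F)

/-- the product of the primes in `B` -/
noncomputable def a16_pr (B : Finset X.P) : F[X] := ∏ p ∈ B, (pol p).1

theorem a16_pr_monic (B : Finset X.P) : (a16_pr X pol B).Monic :=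
  monic_prod_of_monic _ _ fun p _ => (pol p).2.1

theorem a16_pr_deg (hdeg : ∀ p, X.deg p = (pol p).1.natDegree) (B : Finset X.P) :
    (a16_pr X pol B).natDegree = X.dg B := by
  unfold a16_pr PData.dg
  rw [natDegree_prod_of_monic _ _ fun p _ => (pol p).2.1]
  exact sum_congr rfl fun p _ => (hdeg p).symm

theorem a16_dvd (hinj : Function.Injective pol) (B : Finset X.P) (p : X.P) :
    (pol p).1 ∣ a16_pr X pol B ↔ p ∈ B := by
  constructor
  · intro h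
    obtain ⟨p', hp', hd⟩ := ((pol p).2.2.prime.dvd_finsetProd_iff _).1 h
    have h1 : (pol p).1 = (pol p').1 :=
      eq_of_monic_of_associated (pol p).2.1 (pol p').2.1
        ((pol p).2.2.associated_of_dvd (pol p').2.2 hd)
    have h2 : p = p' := hinj (Subtype.ext h1)
    rw [h2]
    exact hp'
  · intro h
    exact dvd_prod_of_mem _ h

theorem a16_fact (hinj : Function.Injective pol) (B₁ B₂ B₃ B₄ : Finset X.P)
    (h : a16_pr X pol B₁ * a16_pr X pol B₂ = a16_pr X pol B₃ * a16_pr X pol B₄) :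
    B₁.val + B₂.val = B₃.val + B₄.val := by
  classical
  have h1 : ∀ B B' : Finset X.P, a16_pr X pol B * a16_pr X pol B' =
      (((B.val + B'.val).map fun p => (pol p).1)).prod := by
    intro B B'
    unfold a16_pr
    rw [Multiset.map_add, Multiset.prod_add]
    rfl
  have h2 : ∀ s : Multiset X.P,
      UniqueFactorizationMonoid.normalizedFactors ((s.map fun p => (pol p).1)).prod =
        s.map fun p => (pol p).1 := by
    intro s
    rw [UniqueFactorizationMonoid.normalizedFactors_prod_eq, Multiset.map_map]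
    · apply Multiset.map_congr rfl
      intro p _
      exact (pol p).2.1.normalize_eq_self
    · intro a ha
      obtain ⟨p, _, rfl⟩ := Multiset.mem_map.1 ha
      exact (pol p).2.2
  rw [h1, h1] at h
  have h3 := congrArg UniqueFactorizationMonoid.normalizedFactors h
  rw [h2, h2] at h3
  exact Multiset.map_injective (fun p p' hpp => hinj (Subtype.ext hpp)) h3

theorem a16_inj (hinj : Function.Injective pol) (B B' : Finset X.P)
    (h : a16_pr X pol B = a16_pr X pol B') : B = B' := by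
  have h1 := a16_fact X pol hinj B ∅ B' ∅ (by rw [h])
  rw [empty_val, add_zero, add_zero] at h1
  exact val_inj.1 h1

theorem a16_card_sq [Finite F] (hinj : Function.Injective pol)
    (hdeg : ∀ p, X.deg p = (pol p).1.natDegree)
    (hmon : ∀ n, (mon F n).card = Nat.card F ^ n) (n : ℕ) :
    (X.sq n).card ≤ Nat.card F ^ n := by
  rw [← hmon]
  apply card_le_card_of_injOn (fun B => a16_pr X pol B)
  · intro B hB
    rw [mem_coe, mem_mon]
    exact ⟨a16_pr_monic X pol B, by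
      rw [a16_pr_deg X pol hdeg]; exact X.mem_sq.1 hB⟩
  · intro B _ B' _ h
    exact a16_inj X pol hinj B B' h

theorem a16_b1 (a b c d : Prop) [Decidable a] [Decidable b] [Decidable c] [Decidable d]
    (h : (if a then 1 else 0) + (if b then 1 else 0) =
      (if c then 1 else 0) + (if d then 1 else (0 : ℕ))) : (b ∧ ¬ d) ↔ (c ∧ ¬ a) := by
  by_cases h1 : a <;> by_cases h2 : b <;> by_cases h3 : c <;> by_cases h4 : d <;>
    simp [h1, h2, h3, h4] at h ⊢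

theorem a16_b2 (a b c d : Prop) [Decidable a] [Decidable b] [Decidable c] [Decidable d]
    (h : (if a then 1 else 0) + (if b then 1 else 0) =
      (if c then 1 else 0) + (if d then 1 else (0 : ℕ))) :
    (b ↔ (b ∧ d) ∨ (c ∧ ¬ a)) ∧ (d ↔ (b ∧ d) ∨ (a ∧ ¬ c)) := by
  by_cases h1 : a <;> by_cases h2 : b <;> by_cases h3 : c <;> by_cases h4 : d <;>
    simp [h1, h2, h3, h4] at h ⊢

theorem a16_b3 (a b c d a' b' c' d' : Prop)
    (h : (b ↔ (b ∧ d) ∨ (c ∧ ¬ a)) ∧ (d ↔ (b ∧ d) ∨ (a ∧ ¬ c)))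
    (h' : (b' ↔ (b' ∧ d') ∨ (c' ∧ ¬ a')) ∧ (d' ↔ (b' ∧ d') ∨ (a' ∧ ¬ c')))
    (h1 : (a ∧ c) ↔ (a' ∧ c')) (h2 : (a ∧ ¬ c) ↔ (a' ∧ ¬ c')) (h3 : (c ∧ ¬ a) ↔ (c' ∧ ¬ a'))
    (h4 : (b ∧ d) ↔ (b' ∧ d')) : ((a ↔ a') ∧ (b ↔ b')) ∧ ((c ↔ c') ∧ (d ↔ d')) := by
  refine ⟨⟨?_, ?_⟩, ?_, ?_⟩
  · constructor
    · intro ha
      by_cases hc : c
      · exact (h1.1 ⟨ha, hc⟩).1
      · exact (h2.1 ⟨ha, hc⟩).1
    · intro ha
      by_cases hc : c'
      · exact (h1.2 ⟨ha, hc⟩).1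
      · exact (h2.2 ⟨ha, hc⟩).1
  · rw [h.1, h'.1, h4, h3]
  · constructor
    · intro hc
      by_cases ha : a
      · exact (h1.1 ⟨ha, hc⟩).2
      · exact (h3.1 ⟨hc, ha⟩).1
    · intro hc
      by_cases ha : a'
      · exact (h1.2 ⟨ha, hc⟩).2
      · exact (h3.2 ⟨hc, ha⟩).1
  · rw [h.2, h'.2, h4, h2]

open Classical in
theorem a16_count [Finite F] (hinj : Function.Injective pol)
    (hdeg : ∀ p, X.deg p = (pol p).1.natDegree)
    (hmon : ∀ n, (mon F n).card = Nat.card F ^ n) (n : ℕ) :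
    (((X.sq n ×ˢ X.sq n) ×ˢ (X.sq n ×ˢ X.sq n)).filter
      fun t : (Finset X.P × Finset X.P) × (Finset X.P × Finset X.P) => a16_pr X pol t.1.1 * a16_pr X pol t.1.2 = a16_pr X pol t.2.1 * a16_pr X pol t.2.2).card ≤
      (n + 1) * Nat.card F ^ (2 * n) := by
  set q := Nat.card F
  set S4 := ((X.sq n ×ˢ X.sq n) ×ˢ (X.sq n ×ˢ X.sq n)).filter
    fun t : (Finset X.P × Finset X.P) × (Finset X.P × Finset X.P) =>
      a16_pr X pol t.1.1 * a16_pr X pol t.1.2 = a16_pr X pol t.2.1 * a16_pr X pol t.2.2 with hS4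
  set T4 : Finset (Σ _ : ℕ, (Finset X.P × Finset X.P) × (Finset X.P × Finset X.P)) :=
    (range (n + 1)).sigma fun x => (X.sq x ×ˢ X.sq (n - x)) ×ˢ (X.sq (n - x) ×ˢ X.sq x) with hT4
  have hcard : T4.card ≤ (n + 1) * q ^ (2 * n) := by
    rw [hT4, card_sigma]
    calc ∑ x ∈ range (n + 1), ((X.sq x ×ˢ X.sq (n - x)) ×ˢ (X.sq (n - x) ×ˢ X.sq x)).card
        ≤ ∑ _x ∈ range (n + 1), q ^ (2 * n) := by
          apply sum_le_sum
          intro x hx
          have hx' : x ≤ n := Nat.lt_succ_iff.1 (mem_range.1 hx)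
          rw [card_product, card_product, card_product]
          calc (X.sq x).card * (X.sq (n - x)).card * ((X.sq (n - x)).card * (X.sq x).card)
              ≤ q ^ x * q ^ (n - x) * (q ^ (n - x) * q ^ x) :=
                Nat.mul_le_mul
                  (Nat.mul_le_mul (a16_card_sq X pol hinj hdeg hmon x)
                    (a16_card_sq X pol hinj hdeg hmon (n - x)))
                  (Nat.mul_le_mul (a16_card_sq X pol hinj hdeg hmon (n - x))
                    (a16_card_sq X pol hinj hdeg hmon x))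
            _ = q ^ (2 * n) := by
                rw [← pow_add, ← pow_add, ← pow_add]
                congr 1
                omega
      _ = (n + 1) * q ^ (2 * n) := by rw [sum_const, card_range, smul_eq_mul]
  refine le_trans ?_ hcard
  -- membership facts
  have hfact : ∀ t ∈ S4, ∀ p, (if p ∈ t.1.1 then 1 else 0) + (if p ∈ t.1.2 then 1 else 0) =
      (if p ∈ t.2.1 then 1 else 0) + (if p ∈ t.2.2 then 1 else (0 : ℕ)) := by
    intro t ht p
    have h1 := a16_fact X pol hinj _ _ _ _ (mem_filter.1 ht).2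
    have h2 := congrArg (Multiset.count p) h1
    rw [Multiset.count_add, Multiset.count_add] at h2
    have h3 : ∀ B : Finset X.P, Multiset.count p B.val = if p ∈ B then 1 else 0 := by
      intro B
      exact Multiset.count_eq_of_nodup B.nodup
    rw [h3, h3, h3, h3] at h2
    exact h2
  have hdgs : ∀ t ∈ S4, X.dg t.1.1 = n ∧ X.dg t.1.2 = n ∧ X.dg t.2.1 = n ∧ X.dg t.2.2 = n := by
    intro t ht
    have h1 := (mem_filter.1 ht).1
    rw [mem_product, mem_product, mem_product] at h1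
    exact ⟨X.mem_sq.1 h1.1.1, X.mem_sq.1 h1.1.2, X.mem_sq.1 h1.2.1, X.mem_sq.1 h1.2.2⟩
  have hsplit : ∀ A B : Finset X.P, X.dg (A ∩ B) + X.dg (A \ B) = X.dg A := by
    intro A B
    unfold PData.dg
    exact sum_inter_add_sum_sdiff A B _
  apply card_le_card_of_injOn
    (fun t => (⟨X.dg (t.1.1 ∩ t.2.1), ((t.1.1 ∩ t.2.1, t.1.1 \ t.2.1),
      (t.2.1 \ t.1.1, t.1.2 ∩ t.2.2))⟩ :
      Σ _ : ℕ, (Finset X.P × Finset X.P) × (Finset X.P × Finset X.P)))
  · intro t ht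
    obtain ⟨d1, d2, d3, d4⟩ := hdgs t ht
    have hf := hfact t ht
    rw [mem_coe, hT4, mem_sigma, mem_range, mem_product, mem_product, mem_product]
    have e1 := hsplit t.1.1 t.2.1
    have e2 := hsplit t.2.1 t.1.1
    have e3 := hsplit t.1.2 t.2.2
    have e4 : t.1.2 \ t.2.2 = t.2.1 \ t.1.1 := by
      ext p
      rw [Finset.mem_sdiff, Finset.mem_sdiff]
      exact a16_b1 _ _ _ _ (hf p)
    rw [inter_comm t.2.1 t.1.1] at e2
    rw [e4] at e3
    simp only [PData.mem_sq]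
    refine ⟨by omega, ⟨trivial, by omega⟩, by omega, by omega⟩
  · intro t ht t' ht' h
    have hf := hfact t ht
    have hf' := hfact t' ht'
    simp only [Sigma.mk.injEq, heq_eq_eq, Prod.mk.injEq] at h
    obtain ⟨-, ⟨h1, h2⟩, h3, h4⟩ := h
    have a1 : ∀ p, (p ∈ t.1.1 ∧ p ∈ t.2.1) ↔ (p ∈ t'.1.1 ∧ p ∈ t'.2.1) := fun p => by
      rw [← mem_inter, ← mem_inter, h1]
    have a2 : ∀ p, (p ∈ t.1.1 ∧ p ∉ t.2.1) ↔ (p ∈ t'.1.1 ∧ p ∉ t'.2.1) := fun p => by
      rw [← Finset.mem_sdiff, ← Finset.mem_sdiff, h2]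
    have a3 : ∀ p, (p ∈ t.2.1 ∧ p ∉ t.1.1) ↔ (p ∈ t'.2.1 ∧ p ∉ t'.1.1) := fun p => by
      rw [← Finset.mem_sdiff, ← Finset.mem_sdiff, h3]
    have a4 : ∀ p, (p ∈ t.1.2 ∧ p ∈ t.2.2) ↔ (p ∈ t'.1.2 ∧ p ∈ t'.2.2) := fun p => by
      rw [← mem_inter, ← mem_inter, h4]
    have k : ∀ p, ((p ∈ t.1.1 ↔ p ∈ t'.1.1) ∧ (p ∈ t.1.2 ↔ p ∈ t'.1.2)) ∧
        ((p ∈ t.2.1 ↔ p ∈ t'.2.1) ∧ (p ∈ t.2.2 ↔ p ∈ t'.2.2)) := by
      intro p
      exact a16_b3 _ _ _ _ _ _ _ _ (a16_b2 _ _ _ _ (hf p)) (a16_b2 _ _ _ _ (hf' p)) (a1 p)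
        (a2 p) (a3 p) (a4 p)
    apply Prod.ext
    · apply Prod.ext
      · ext p; exact (k p).1.1
      · ext p; exact (k p).1.2
    · apply Prod.ext
      · ext p; exact (k p).2.1
      · ext p; exact (k p).2.2

end Count

/-! ### The bilinear estimate -/

section Main

variable {F : Type} [Field F] [Finite F] {ℓ : ℕ} [Fact ℓ.Prime] {lg : F → ZMod ℓ} {σ : Type}

theorem a16_main (horth : A16Orth F ℓ lg) (hmon : ∀ n, (mon F n).card = Nat.card F ^ n)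
    (hlg : IsLog ℓ lg) (X : PData ℓ σ) (pol : X.P → Prm F) (hinj : Function.Injective pol)
    (hdeg : ∀ p, X.deg p = (pol p).1.natDegree)
    (hsym : ∀ p p', X.sym p p' = sy lg (pol p').1 (pol p).1)
    (m n : ℕ) (hmn : m ≤ n) (c : ZMod ℓ) (hc : c ≠ 0)
    (α β : Finset X.P → ℂ) (hα : ∀ A, ‖α A‖ ≤ 1) (hβ : ∀ B, ‖β B‖ ≤ 1) :
    ‖∑ A ∈ X.sq m, ∑ B ∈ X.sq n,
      if Disjoint A B then α A * β B * ee (c * X.symS A B) else 0‖ ^ 4 ≤
        (n + 1) * (Nat.card F : ℝ) ^ (3 * m + 4 * n) := by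
  classical
  set q : ℝ := (Nat.card F : ℝ) with hq
  have hq0 : 0 ≤ q := Nat.cast_nonneg _
  set img : Finset X.P → Finset (Prm F) := fun A => A.image pol with himg
  have himg_inj : Function.Injective img := image_injective hinj
  set fB : Finset X.P → F[X] := a16_pr X pol with hfB
  set χ : Finset X.P → F[X] → ℂ := fun A f => a16_chi lg c (img A) f with hχ
  set T : Finset X.P → ℂ := fun A => ∑ B ∈ X.sq n, β B * χ A (fB B) with hT
  -- the summand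
  have hval : ∀ A B : Finset X.P, χ A (fB B) =
      if Disjoint A B then ee (c * X.symS A B) else 0 := by
    intro A B
    simp only [hχ, a16_chi]
    by_cases hd : Disjoint A B
    · have h1 : ¬ ∃ Q ∈ img A, Q.1 ∣ fB B := by
        rintro ⟨Q, hQ, hdv⟩
        obtain ⟨p, hp, rfl⟩ := mem_image.1 hQ
        exact (disjoint_left.1 hd hp) ((a16_dvd X pol hinj B p).1 hdv)
      rw [if_neg h1, if_pos hd]
      congr 2
      rw [himg, sum_image fun p _ p' _ h => hinj h]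
      unfold PData.symS
      apply sum_congr rfl
      intro p hp
      have hnd : ∀ p' ∈ B, ¬ (pol p).1 ∣ (pol p').1 := by
        intro p' hp' hdv
        have h2 : (pol p).1 = (pol p').1 :=
          eq_of_monic_of_associated (pol p).2.1 (pol p').2.1
            ((pol p).2.2.associated_of_dvd (pol p').2.2 hdv)
        have h3 : p = p' := hinj (Subtype.ext h2)
        rw [h3] at hp
        exact disjoint_left.1 hd hp hp'
      rw [hfB, a16_pr, a16_sy_prod hlg (pol p).2.2 B (fun p' => (pol p').1) hnd]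
      apply sum_congr rfl
      intro p' hp'
      have hne : p ≠ p' := by
        rintro rfl
        exact disjoint_left.1 hd hp hp'
      rw [X.sym_comm p p' hne, hsym]
    · have h1 : ∃ Q ∈ img A, Q.1 ∣ fB B := by
        rw [disjoint_left] at hd
        push Not at hd
        obtain ⟨p, hp, hp'⟩ := hd
        exact ⟨pol p, mem_image_of_mem _ hp, (a16_dvd X pol hinj B p).2 hp'⟩
      rw [if_pos h1, if_neg hd]
  have hS : ∑ A ∈ X.sq m, ∑ B ∈ X.sq n,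
      (if Disjoint A B then α A * β B * ee (c * X.symS A B) else 0) =
      ∑ A ∈ X.sq m, α A * T A := by
    apply sum_congr rfl
    intro A _
    simp only [hT]
    rw [mul_sum]
    apply sum_congr rfl
    intro B _
    rw [hval]
    split_ifs
    · ring
    · ring
  rw [hS]
  -- Hoelder
  have h1 : ‖∑ A ∈ X.sq m, α A * T A‖ ≤ ∑ A ∈ X.sq m, ‖T A‖ := by
    refine le_trans (norm_sum_le _ _) (sum_le_sum fun A _ => ?_)
    rw [norm_mul]
    exact mul_le_of_le_one_left (norm_nonneg _) (hα A)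
  have hcm : ((X.sq m).card : ℝ) ≤ q ^ m := by
    rw [hq]
    exact_mod_cast a16_card_sq X pol hinj hdeg hmon m
  have h2 : (∑ A ∈ X.sq m, ‖T A‖) ^ 4 ≤ (q ^ m) ^ 3 * ∑ A ∈ X.sq m, ‖T A ^ 2‖ ^ 2 := by
    have e1 : (∑ A ∈ X.sq m, ‖T A‖) ^ 2 ≤ q ^ m * ∑ A ∈ X.sq m, ‖T A‖ ^ 2 :=
      le_trans sq_sum_le_card_mul_sum_sq
        (mul_le_mul_of_nonneg_right hcm (sum_nonneg fun A _ => sq_nonneg _))
    have e2 : (∑ A ∈ X.sq m, ‖T A‖ ^ 2) ^ 2 ≤ q ^ m * ∑ A ∈ X.sq m, (‖T A‖ ^ 2) ^ 2 :=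
      le_trans sq_sum_le_card_mul_sum_sq
        (mul_le_mul_of_nonneg_right hcm (sum_nonneg fun A _ => sq_nonneg _))
    have e3 : ∑ A ∈ X.sq m, (‖T A‖ ^ 2) ^ 2 = ∑ A ∈ X.sq m, ‖T A ^ 2‖ ^ 2 :=
      sum_congr rfl fun A _ => by rw [norm_pow]
    rw [e3] at e2
    calc (∑ A ∈ X.sq m, ‖T A‖) ^ 4 = ((∑ A ∈ X.sq m, ‖T A‖) ^ 2) ^ 2 := by ring
      _ ≤ (q ^ m * ∑ A ∈ X.sq m, ‖T A‖ ^ 2) ^ 2 := pow_le_pow_left₀ (sq_nonneg _) e1 2
      _ = (q ^ m) ^ 2 * (∑ A ∈ X.sq m, ‖T A‖ ^ 2) ^ 2 := by ring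
      _ ≤ (q ^ m) ^ 2 * (q ^ m * ∑ A ∈ X.sq m, ‖T A ^ 2‖ ^ 2) :=
          mul_le_mul_of_nonneg_left e2 (by positivity)
      _ = _ := by ring
  -- squares of `T`
  set s2 := X.sq n ×ˢ X.sq n with hs2
  set b : F[X] → ℂ := fun f => ∑ x ∈ s2 with fB x.1 * fB x.2 = f, β x.1 * β x.2 with hb
  have h3 : ∀ A, T A ^ 2 = ∑ f ∈ mon F (2 * n), b f * χ A f := by
    intro A
    have hmaps : ∀ x ∈ s2, fB x.1 * fB x.2 ∈ mon F (2 * n) := by
      intro x hx
      rw [hs2, mem_product] at hx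
      rw [mem_mon]
      refine ⟨(a16_pr_monic X pol _).mul (a16_pr_monic X pol _), ?_⟩
      rw [(a16_pr_monic X pol _).natDegree_mul (a16_pr_monic X pol _), a16_pr_deg X pol hdeg,
        a16_pr_deg X pol hdeg, X.mem_sq.1 hx.1, X.mem_sq.1 hx.2]
      ring
    have e1 : T A ^ 2 = ∑ x ∈ s2, (β x.1 * β x.2) * χ A (fB x.1 * fB x.2) := by
      rw [pow_two, hT, sum_mul_sum, hs2, sum_product]
      apply sum_congr rfl
      intro B _
      apply sum_congr rfl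
      intro B' _
      simp only [hχ]
      rw [a16_chi_mul hlg]
      ring
    rw [e1, ← sum_fiberwise_of_maps_to hmaps]
    apply sum_congr rfl
    intro f _
    simp only [hb]
    rw [sum_mul]
    apply sum_congr rfl
    intro x hx
    rw [(mem_filter.1 hx).2]
  -- duality
  have h4 : ∑ A ∈ X.sq m, ‖T A ^ 2‖ ^ 2 ≤ q ^ (2 * n) * ∑ f ∈ mon F (2 * n), ‖b f‖ ^ 2 := by
    have h5 := a16_dual horth hmon hc ((X.sq m).image img) (2 * n) ?_ b
    · rw [sum_image fun A _ A' _ h => himg_inj h] at h5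
      refine le_trans (le_of_eq ?_) h5
      apply sum_congr rfl
      intro A _
      rw [h3]
    · intro G hG
      obtain ⟨A, hA, rfl⟩ := mem_image.1 hG
      have e1 : ∑ Q ∈ img A, Q.1.natDegree = X.dg A := by
        rw [himg, sum_image fun p _ p' _ h => hinj h]
        exact sum_congr rfl fun p _ => (hdeg p).symm
      rw [e1, X.mem_sq.1 hA]
      omega
  -- the second moment of `b`
  have h6 : ∑ f ∈ mon F (2 * n), ‖b f‖ ^ 2 ≤ (n + 1) * q ^ (2 * n) := by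
    have e1 : ∀ f, ‖b f‖ ^ 2 ≤
        (((s2 ×ˢ s2).filter fun t => fB t.1.1 * fB t.1.2 = f ∧ fB t.2.1 * fB t.2.2 = f).card : ℝ) := by
      intro f
      have e2 : ‖b f‖ ≤ ((s2.filter fun x => fB x.1 * fB x.2 = f).card : ℝ) := by
        simp only [hb]
        refine le_trans (norm_sum_le _ _) ?_
        calc ∑ x ∈ s2 with fB x.1 * fB x.2 = f, ‖β x.1 * β x.2‖
            ≤ ∑ x ∈ s2 with fB x.1 * fB x.2 = f, (1 : ℝ) := by
              apply sum_le_sum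
              intro x _
              rw [norm_mul]
              exact mul_le_one₀ (hβ _) (norm_nonneg _) (hβ _)
          _ = _ := by rw [sum_const, nsmul_eq_mul, mul_one]
      have e3 : ((s2 ×ˢ s2).filter fun t => fB t.1.1 * fB t.1.2 = f ∧ fB t.2.1 * fB t.2.2 = f) =
          (s2.filter fun x => fB x.1 * fB x.2 = f) ×ˢ (s2.filter fun x => fB x.1 * fB x.2 = f) := by
        ext t
        simp only [mem_filter, mem_product]
        tauto
      rw [e3, card_product]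
      push_cast
      calc ‖b f‖ ^ 2 ≤ ((s2.filter fun x => fB x.1 * fB x.2 = f).card : ℝ) ^ 2 :=
            pow_le_pow_left₀ (norm_nonneg _) e2 2
        _ = _ := by ring
    refine le_trans (sum_le_sum fun f _ => e1 f) ?_
    have e4 : ∑ f ∈ mon F (2 * n),
        ((s2 ×ˢ s2).filter fun t => fB t.1.1 * fB t.1.2 = f ∧ fB t.2.1 * fB t.2.2 = f).card ≤
        ((s2 ×ˢ s2).filter fun t => fB t.1.1 * fB t.1.2 = fB t.2.1 * fB t.2.2).card := by
      rw [← card_biUnion]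
      · apply card_le_card
        intro t ht
        rw [mem_biUnion] at ht
        obtain ⟨f, _, hf⟩ := ht
        rw [mem_filter] at hf ⊢
        exact ⟨hf.1, hf.2.1.trans hf.2.2.symm⟩
      · intro f _ f' _ hne
        rw [Function.onFun, disjoint_left]
        intro t ht ht'
        exact hne ((mem_filter.1 ht).2.1.symm.trans (mem_filter.1 ht').2.1)
    have e5 := le_trans e4 (a16_count X pol hinj hdeg hmon n)
    have e6 : ((∑ f ∈ mon F (2 * n),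
        ((s2 ×ˢ s2).filter fun t => fB t.1.1 * fB t.1.2 = f ∧ fB t.2.1 * fB t.2.2 = f).card : ℕ) : ℝ) ≤
        (((n + 1) * Nat.card F ^ (2 * n) : ℕ) : ℝ) := by exact_mod_cast e5
    push_cast at e6
    exact e6
  calc ‖∑ A ∈ X.sq m, α A * T A‖ ^ 4 ≤ (∑ A ∈ X.sq m, ‖T A‖) ^ 4 :=
        pow_le_pow_left₀ (norm_nonneg _) h1 4
    _ ≤ (q ^ m) ^ 3 * ∑ A ∈ X.sq m, ‖T A ^ 2‖ ^ 2 := h2
    _ ≤ (q ^ m) ^ 3 * (q ^ (2 * n) * ∑ f ∈ mon F (2 * n), ‖b f‖ ^ 2) :=
        mul_le_mul_of_nonneg_left h4 (by positivity)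
    _ ≤ (q ^ m) ^ 3 * (q ^ (2 * n) * ((n + 1) * q ^ (2 * n))) :=
        mul_le_mul_of_nonneg_left (mul_le_mul_of_nonneg_left h6 (by positivity)) (by positivity)
    _ = (n + 1) * q ^ (3 * m + 4 * n) := by ring

end Main

section

variable {F : Type} [Field F] [Finite F] {ℓ : ℕ} [Fact ℓ.Prime] {σ : Type} [Fintype σ]
  {lg : F → ZMod ℓ}
  (hrec : ∀ P Q : Prm F, P ≠ Q → sy lg Q.1 P.1 = sy lg P.1 Q.1) (R : σ → Prm F)

/-- A16: the bilinear estimate -/
theorem pd_bilin (hlg : IsLog ℓ lg) (m n : ℕ) (hmn : m ≤ n) (c : ZMod ℓ) (hc : c ≠ 0)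
    (α β : Finset (pd lg hrec R).P → ℂ) (hα : ∀ A, ‖α A‖ ≤ 1) (hβ : ∀ B, ‖β B‖ ≤ 1) :
    ‖∑ A ∈ (pd lg hrec R).sq m, ∑ B ∈ (pd lg hrec R).sq n,
      if Disjoint A B then α A * β B * ee (c * (pd lg hrec R).symS A B) else 0‖ ^ 4 ≤
        (n + 1) * (Nat.card F : ℝ) ^ (3 * m + 4 * n) :=
  a16_main (fun G g hne n hn => sum_mon_eq_zero hlg G g hne n hn) (fun n => card_mon n) hlg
    (pd lg hrec R) (fun p => p.1) Subtype.val_injective (fun _ => rfl) (fun _ _ => rfl) m n hmn c hc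
    α β hα hβ

end

end Pool.Agent.Helper54.PT
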