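import Pool.Agent.Helper54.PT.Defs

/-!
# Reciprocity for the norm symbol in `F[X]` (module A3)
-/

set_option autoImplicit false

namespace Pool.Agent.Helper54.PT

open Polynomial Finset Filter Topology

section

variable {F : Type} [Field F]

theorem a3_neg {K : Type} [CommRing K] (s : Multiset K) (f g : K → K) (h : ∀ b, f b = -g b) :
    (s.map f).prod = (-1) ^ s.card * (s.map g).prod := by
  induction s using Multiset.induction_on with
  | empty => simp
  | cons a s ih =>
    rw [Multiset.map_cons, Multiset.map_cons, Multiset.prod_cons, Multiset.prod_cons,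
      Multiset.card_cons, ih, h a, pow_succ]
    ring

/-- The norm of `P` modulo `Q` in terms of the roots. -/
theorem a3_nm (P Q : F[X]) (hP : P.Monic) (hQ : Q.Monic) (hQi : Irreducible Q) :
    algebraMap F (AlgebraicClosure F) (nm Q P) =
      ((P.aroots (AlgebraicClosure F)).map fun b =>
        ((Q.aroots (AlgebraicClosure F)).map fun a => a - b).prod).prod := by
  classical
  set K := AlgebraicClosure F
  set pb := AdjoinRoot.powerBasis (f := Q) hQi.ne_zero with hpb
  set M := Algebra.leftMulMatrix pb.basis (AdjoinRoot.root Q) with hM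
  have hgen : pb.gen = AdjoinRoot.root Q := rfl
  have hchar : M.charpoly = Q := by
    have h1 := charpoly_leftMulMatrix pb
    rw [hgen] at h1
    rw [hM, h1, AdjoinRoot.minpoly_root hQi.ne_zero, hQ.leadingCoeff, inv_one, map_one, mul_one]
  have hdim : pb.dim = Q.natDegree := AdjoinRoot.powerBasis_dim hQi.ne_zero
  -- the norm as a determinant
  have h1 : nm Q P = (aeval M P).det := by
    unfold nm
    rw [Algebra.norm_eq_matrix_det pb.basis]
    congr 1
    have : AdjoinRoot.mk Q P = aeval (AdjoinRoot.root Q) P := (AdjoinRoot.aeval_eq P).symm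
    rw [this, ← Polynomial.aeval_algHom_apply]
  set M' : Matrix (Fin pb.dim) (Fin pb.dim) K := M.map (algebraMap F K) with hM'
  have h2 : algebraMap F K (aeval M P).det = (aeval M' (P.map (algebraMap F K))).det := by
    have e1 : aeval M' (P.map (algebraMap F K)) =
        (algebraMap F K).mapMatrix (aeval M P) := by
      rw [Polynomial.aeval_map_algebraMap]
      have := Polynomial.aeval_algHom_apply
        ((Algebra.ofId F K).mapMatrix (m := Fin pb.dim)) M P
      exact this
    rw [e1, ← RingHom.map_det]
  have hPs : (P.map (algebraMap F K)) =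
      ((P.aroots K).map fun b => X - C b).prod := by
    have := (IsAlgClosed.splits (P.map (algebraMap F K))).eq_prod_roots
    rw [(hP.map _).leadingCoeff, map_one, one_mul] at this
    exact this
  have hQs : (Q.map (algebraMap F K)) =
      ((Q.aroots K).map fun b => X - C b).prod := by
    have := (IsAlgClosed.splits (Q.map (algebraMap F K))).eq_prod_roots
    rw [(hQ.map _).leadingCoeff, map_one, one_mul] at this
    exact this
  have hcardQ : (Q.aroots K).card = pb.dim := by
    rw [hdim]
    have h3 := congrArg Polynomial.natDegree hQs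
    rw [natDegree_map, natDegree_multiset_prod_X_sub_C_eq_card] at h3
    exact h3.symm
  let φ : K[X] →* K := (Matrix.detMonoidHom).comp
    ((aeval M' : K[X] →ₐ[K] Matrix (Fin pb.dim) (Fin pb.dim) K).toRingHom.toMonoidHom)
  have hφ : ∀ g : K[X], φ g = (aeval M' g).det := fun g => rfl
  have hlin : ∀ b : K, φ (X - C b) = ((Q.aroots K).map fun a => a - b).prod := by
    intro b
    rw [hφ, map_sub, aeval_X, aeval_C]
    have h4 : (M' - algebraMap K _ b).det =
        (-1) ^ pb.dim * (algebraMap K (Matrix (Fin pb.dim) (Fin pb.dim) K) b - M').det := by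
      have h5 : M' - algebraMap K _ b =
          -(algebraMap K (Matrix (Fin pb.dim) (Fin pb.dim) K) b - M') := by
        rw [neg_sub]
      rw [h5, Matrix.det_neg, Fintype.card_fin]
    have h6 : (algebraMap K (Matrix (Fin pb.dim) (Fin pb.dim) K) b - M').det =
        (Q.map (algebraMap F K)).eval b := by
      have h7 : M'.charpoly = Q.map (algebraMap F K) := by
        rw [hM', Matrix.charpoly_map, hchar]
      rw [← h7, Matrix.eval_charpoly]
      rfl
    rw [h4, h6, hQs, eval_multiset_prod, Multiset.map_map]
    have h8 : ((Q.aroots K).map fun a => a - b).prod =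
        (-1) ^ (Q.aroots K).card * ((Q.aroots K).map fun a => b - a).prod :=
      a3_neg _ _ _ fun a => by ring
    rw [h8, hcardQ]
    congr 2
    apply Multiset.map_congr rfl
    intro a _
    simp
  rw [h1, h2, ← hφ, hPs, map_multiset_prod, Multiset.map_map]
  congr 1
  apply Multiset.map_congr rfl
  intro b _
  exact hlin b

theorem a3_comm (P Q : F[X]) (hP : P.Monic) (hPi : Irreducible P) (hQ : Q.Monic)
    (hQi : Irreducible Q) :
    ∃ k : ℕ, nm Q P = (-1) ^ k * nm P Q := by
  classical
  refine ⟨(P.aroots (AlgebraicClosure F)).card * (Q.aroots (AlgebraicClosure F)).card, ?_⟩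
  apply (algebraMap F (AlgebraicClosure F)).injective
  rw [map_mul, map_pow, map_neg, map_one, a3_nm P Q hP hQ hQi, a3_nm Q P hQ hP hPi,
    Multiset.prod_map_prod_map]
  have h1 : ∀ a : AlgebraicClosure F,
      ((P.aroots (AlgebraicClosure F)).map fun b => a - b).prod =
      (-1) ^ (P.aroots (AlgebraicClosure F)).card *
        ((P.aroots (AlgebraicClosure F)).map fun b => b - a).prod :=
    fun a => a3_neg _ _ _ fun b => by ring
  rw [Multiset.map_congr rfl fun a _ => h1 a, Multiset.prod_map_mul]
  congr 1
  rw [Multiset.map_const', Multiset.prod_replicate, pow_mul]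

/-- A3: reciprocity -/
theorem sy_comm {ℓ : ℕ} {lg : F → ZMod ℓ} (hlg : IsLog ℓ lg) (hm : lg (-1) = 0) {P Q : F[X]}
    (hP : P.Monic) (hPi : Irreducible P) (hQ : Q.Monic) (hQi : Irreducible Q) (_h : P ≠ Q) :
    sy lg Q P = sy lg P Q := by
  obtain ⟨k, hk⟩ := a3_comm P Q hP hPi hQ hQi
  unfold sy
  have h1 : lg 1 = 0 := by
    have := hlg.1 1 1 one_ne_zero one_ne_zero
    rw [mul_one] at this
    simpa using this
  have h2 : ∀ k : ℕ, lg ((-1) ^ k) = 0 := by
    intro k
    induction k with
    | zero => rw [pow_zero]; exact h1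
    | succ k ih =>
      rw [pow_succ, hlg.1 _ _ (pow_ne_zero _ (by simp)) (by simp), ih, hm, add_zero]
  rw [hk]
  by_cases h0 : nm P Q = 0
  · rw [h0, mul_zero]
  · rw [hlg.1 _ _ (pow_ne_zero _ (by simp)) h0, h2, zero_add]

end

end Pool.Agent.Helper54.PT
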